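import Mathlib

/-!
# Ball arithmetic with rational centres and radii
-/

set_option autoImplicit false

namespace Pool.Agent.Helper48_Lozi

/-- `x` is within `r` of `c`. -/
def Ball (x : ℝ) (c r : ℚ) : Prop := |x - c| ≤ r

theorem Ball.bounds {x : ℝ} {c r : ℚ} (h : Ball x c r) :
    ((c - r : ℚ) : ℝ) ≤ x ∧ x ≤ ((c + r : ℚ) : ℝ) := by
  have := abs_le.1 h
  push_cast
  constructor <;> linarith

theorem Ball.pos {x : ℝ} {c r : ℚ} (h : Ball x c r) (hr : r < c) : 0 < x := by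
  have h1 := h.bounds.1
  have h2 : (0 : ℝ) < ((c - r : ℚ) : ℝ) := by exact_mod_cast sub_pos.2 hr
  linarith

theorem Ball.neg_of {x : ℝ} {c r : ℚ} (h : Ball x c r) (hr : c + r < 0) : x < 0 := by
  have h1 := h.bounds.2
  have h2 : ((c + r : ℚ) : ℝ) < 0 := by exact_mod_cast hr
  linarith

theorem Ball.mono {x : ℝ} {c r c' r' : ℚ} (h : Ball x c r) (hc : |c - c'| + r ≤ r') :
    Ball x c' r' := by
  unfold Ball at *
  have h1 : |x - c'| ≤ |x - c| + |(c : ℝ) - c'| := by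
    have := abs_add_le (x - c) ((c : ℝ) - c')
    simpa using this
  have h2 : ((|c - c'| + r : ℚ) : ℝ) ≤ r' := by exact_mod_cast hc
  push_cast at h2
  linarith

theorem Ball.const (c : ℚ) : Ball (c : ℝ) c 0 := by simp [Ball]

theorem Ball.neg {x : ℝ} {c r : ℚ} (h : Ball x c r) : Ball (-x) (-c) r := by
  unfold Ball at *
  push_cast
  rwa [show -x - -(c : ℝ) = -(x - c) by ring, abs_neg]

theorem Ball.add {x y : ℝ} {c r d q : ℚ} (h : Ball x c r) (h' : Ball y d q) :
    Ball (x + y) (c + d) (r + q) := by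
  unfold Ball at *
  push_cast
  have := abs_add_le (x - c) (y - d)
  rw [show x + y - ((c : ℝ) + d) = x - c + (y - d) by ring]
  linarith

theorem Ball.sub {x y : ℝ} {c r d q : ℚ} (h : Ball x c r) (h' : Ball y d q) :
    Ball (x - y) (c - d) (r + q) := by
  have := h.add h'.neg
  rwa [← sub_eq_add_neg, ← sub_eq_add_neg] at this

theorem Ball.mul {x y : ℝ} {c r d q : ℚ} (h : Ball x c r) (h' : Ball y d q) :
    Ball (x * y) (c * d) (|c| * q + |d| * r + r * q) := by
  unfold Ball at *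
  push_cast
  have e : x * y - (c : ℝ) * d = c * (y - d) + d * (x - c) + (x - c) * (y - d) := by ring
  rw [e]
  have h1 := abs_add_le (c * (y - d) + d * (x - c)) ((x - c) * (y - d))
  have h2 := abs_add_le (c * (y - d)) (d * (x - c))
  rw [abs_mul, abs_mul] at h2
  rw [abs_mul (x - c)] at h1
  have h3 : |(c : ℝ)| * |y - d| ≤ |(c : ℝ)| * q := by gcongr
  have h4 : |(d : ℝ)| * |x - c| ≤ |(d : ℝ)| * r := by gcongr
  have h5 : |x - c| * |y - d| ≤ r * q := by
    have : 0 ≤ (r : ℝ) := (abs_nonneg _).trans h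
    gcongr
  linarith

/-- The basic step `z = D + b y + a x`. -/
theorem Ball.lin {D b y a x z : ℝ} {D0 b0 y0 a0 x0 rD rb ry ra rx : ℚ} (z0 rz : ℚ)
    (hz : z = D + b * y + a * x)
    (hD : Ball D D0 rD) (hb : Ball b b0 rb) (hy : Ball y y0 ry) (ha : Ball a a0 ra)
    (hx : Ball x x0 rx)
    (hn : |D0 + b0 * y0 + a0 * x0 - z0| + (rD + (|b0| * ry + |y0| * rb + rb * ry)
      + (|a0| * rx + |x0| * ra + ra * rx)) ≤ rz) : Ball z z0 rz := by
  rw [hz]
  exact ((hD.add (hb.mul hy)).add (ha.mul hx)).mono hn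

/-- The root `e` of an affine function with small value at `e0`. -/
theorem Ball.root {e F0 B : ℝ} {e0 f0 rf B0 rB : ℚ} (re : ℚ)
    (hF : Ball F0 f0 rf) (hB : Ball B B0 rB) (he : F0 = B * (e0 - e))
    (hn : |f0| + rf ≤ re * (|B0| - rB)) (hB0 : rB < |B0|) : Ball e e0 re := by
  unfold Ball at *
  have h1 : |F0| ≤ |f0| + rf := by
    have := abs_add_le (F0 - f0) (f0 : ℝ)
    push_cast
    rw [sub_add_cancel] at this
    linarith
  have h2 : ((|B0| - rB : ℚ) : ℝ) ≤ |B| := by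
    have := abs_sub_abs_le_abs_sub (B0 : ℝ) B
    rw [abs_sub_comm] at this
    push_cast
    linarith
  have h3 : (0 : ℝ) < ((|B0| - rB : ℚ) : ℝ) := by exact_mod_cast sub_pos.2 hB0
  have h4 : |F0| = |B| * |e - e0| := by rw [he, abs_mul, abs_sub_comm]
  have h5 : ((|B0| - rB : ℚ) : ℝ) * |e - e0| ≤ ((|B0| - rB : ℚ) : ℝ) * re := by
    calc ((|B0| - rB : ℚ) : ℝ) * |e - e0| ≤ |B| * |e - e0| := by gcongr
      _ = |F0| := h4.symm
      _ ≤ |f0| + rf := h1
      _ ≤ re * ((|B0| - rB : ℚ) : ℝ) := by exact_mod_cast hn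
      _ = _ := mul_comm _ _
  exact le_of_mul_le_mul_left h5 h3

end Pool.Agent.Helper48_Lozi
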