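import Pool.Agent.Helper48_Lozi.Link

/-!
# Existence of the two common zeros of `P1` and `P2`
-/

set_option autoImplicit false

namespace Pool.Agent.Helper48_Lozi

theorem box_zero (u0 s0 δ : ℚ) (c11 c12 c21 c22 : ℝ) (hδ : 0 < δ) (hu0 : δ ≤ u0) (hs0 : δ ≤ s0)
    (L1 H1 M1 N1 L2 H2 M2 N2 : ℚ)
    (h1 : L1 ≤ bdU P1 (u0 - δ) (u0 + δ) (s0 - δ) (s0 + δ))
    (h2 : bdU P1 (u0 + δ) (u0 - δ) (s0 + δ) (s0 - δ) ≤ H1)
    (h3 : M1 ≤ bdS P1 (u0 - δ) (u0 + δ) (s0 - δ) (s0 + δ))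
    (h4 : bdS P1 (u0 + δ) (u0 - δ) (s0 + δ) (s0 - δ) ≤ N1)
    (h5 : L2 ≤ bdU P2 (u0 - δ) (u0 + δ) (s0 - δ) (s0 + δ))
    (h6 : bdU P2 (u0 + δ) (u0 - δ) (s0 + δ) (s0 - δ) ≤ H2)
    (h7 : M2 ≤ bdS P2 (u0 - δ) (u0 + δ) (s0 - δ) (s0 + δ))
    (h8 : bdS P2 (u0 + δ) (u0 - δ) (s0 + δ) (s0 - δ) ≤ N2)
    (hc : ∀ A1 B1 A2 B2 : ℝ, L1 ≤ A1 → A1 ≤ H1 → M1 ≤ B1 → B1 ≤ N1 → L2 ≤ A2 → A2 ≤ H2 →
      M2 ≤ B2 → B2 ≤ N2 →
      |1 - (c11 * A1 + c12 * A2)| + |-(c11 * B1 + c12 * B2)| ≤ 1 / 2 ∧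
      |-(c21 * A1 + c22 * A2)| + |1 - (c21 * B1 + c22 * B2)| ≤ 1 / 2)
    (hf : |c11 * (evQ P1 u0 s0 : ℝ) + c12 * (evQ P2 u0 s0 : ℝ)| ≤ δ / 2)
    (hg : |c21 * (evQ P1 u0 s0 : ℝ) + c22 * (evQ P2 u0 s0 : ℝ)| ≤ δ / 2)
    (hdet : c11 * c22 - c12 * c21 ≠ 0) :
    ∃ u s : ℝ, |u - u0| ≤ δ ∧ |s - s0| ≤ δ ∧ ev P1 u s = 0 ∧ ev P2 u s = 0 := by
  have hδ' : (0 : ℝ) < δ := by exact_mod_cast hδ
  obtain ⟨u, s, hu, hs, hf', hg'⟩ := exists_zero
    (fun u s => c11 * ev P1 u s + c12 * ev P2 u s)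
    (fun u s => c21 * ev P1 u s + c22 * ev P2 u s) u0 s0 δ hδ' (by
      intro u s u' s' hu hs hu' hs'
      rw [abs_le] at hu hs hu' hs'
      have a1 : ((u0 - δ : ℚ) : ℝ) ≤ u := by push_cast; linarith
      have a2 : u ≤ ((u0 + δ : ℚ) : ℝ) := by push_cast; linarith
      have a3 : ((u0 - δ : ℚ) : ℝ) ≤ u' := by push_cast; linarith
      have a4 : u' ≤ ((u0 + δ : ℚ) : ℝ) := by push_cast; linarith
      have b1 : ((s0 - δ : ℚ) : ℝ) ≤ s := by push_cast; linarith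
      have b2 : s ≤ ((s0 + δ : ℚ) : ℝ) := by push_cast; linarith
      have b3 : ((s0 - δ : ℚ) : ℝ) ≤ s' := by push_cast; linarith
      have b4 : s' ≤ ((s0 + δ : ℚ) : ℝ) := by push_cast; linarith
      obtain ⟨A1, B1, p1, p2, p3, p4, p5⟩ := slope P1 _ _ _ _ (sub_nonneg.2 hu0)
        (sub_nonneg.2 hs0) a1 a2 a3 a4 b1 b2 b3 b4
      obtain ⟨A2, B2, q1, q2, q3, q4, q5⟩ := slope P2 _ _ _ _ (sub_nonneg.2 hu0)
        (sub_nonneg.2 hs0) a1 a2 a3 a4 b1 b2 b3 b4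
      have r1 := (Rat.cast_le (K := ℝ)).2 h1
      have r2 := (Rat.cast_le (K := ℝ)).2 h2
      have r3 := (Rat.cast_le (K := ℝ)).2 h3
      have r4 := (Rat.cast_le (K := ℝ)).2 h4
      have r5 := (Rat.cast_le (K := ℝ)).2 h5
      have r6 := (Rat.cast_le (K := ℝ)).2 h6
      have r7 := (Rat.cast_le (K := ℝ)).2 h7
      have r8 := (Rat.cast_le (K := ℝ)).2 h8
      obtain ⟨t1, t2⟩ := hc A1 B1 A2 B2 (r1.trans p1) (p2.trans r2) (r3.trans p3) (p4.trans r4)
        (r5.trans q1) (q2.trans r6) (r7.trans q3) (q4.trans r8)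
      refine ⟨_, _, _, _, t1, t2, ?_, ?_⟩
      · linear_combination -c11 * p5 - c12 * q5
      · linear_combination -c21 * p5 - c22 * q5)
    (by simpa only [ev_evQ] using hf) (by simpa only [ev_evQ] using hg)
  refine ⟨u, s, hu, hs, ?_, ?_⟩
  · have : (c11 * c22 - c12 * c21) * ev P1 u s = 0 := by
      linear_combination c22 * hf' - c12 * hg'
    exact (mul_eq_zero.1 this).resolve_left hdet
  · have : (c11 * c22 - c12 * c21) * ev P2 u s = 0 := by
      linear_combination c11 * hg' - c21 * hf'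
    exact (mul_eq_zero.1 this).resolve_left hdet

theorem evP1_box1 : |evQ P1 (383165937 / 200000000) (86667729 / 1000000000)| ≤ 1 / 10000000 := by decide +kernel

theorem evP2_box1 : |evQ P2 (383165937 / 200000000) (86667729 / 1000000000)| ≤ 2 / 1000000 := by decide +kernel

theorem box1 : ∃ u s : ℝ, |u - ((383165937 / 200000000) : ℚ)| ≤ (1 / 10000000 : ℚ) ∧
    |s - ((86667729 / 1000000000) : ℚ)| ≤ (1 / 10000000 : ℚ) ∧ ev P1 u s = 0 ∧ ev P2 u s = 0 := by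
  have e1 : |(evQ P1 (383165937 / 200000000) (86667729 / 1000000000) : ℝ)| ≤ 1 / 10000000 := by
    have := (Rat.cast_le (K := ℝ)).2 evP1_box1
    push_cast at this
    exact this
  have e2 : |(evQ P2 (383165937 / 200000000) (86667729 / 1000000000) : ℝ)| ≤ 2 / 1000000 := by
    have := (Rat.cast_le (K := ℝ)).2 evP2_box1
    push_cast at this
    exact this
  rw [abs_le] at e1 e2
  refine box_zero (383165937 / 200000000) (86667729 / 1000000000) (1 / 10000000)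
    (6827 / 625000) (7553 / 10000000) (663253 / 10000000) (30291 / 10000000) (by norm_num) (by norm_num) (by norm_num)
    (-178079 / 1000) (-44519 / 250) (44403 / 1000) (44407 / 1000) (3899101 / 1000) (974821 / 250) (-160561 / 250) (-642081 / 1000)
    (by decide +kernel) (by decide +kernel) (by decide +kernel) (by decide +kernel)
    (by decide +kernel) (by decide +kernel) (by decide +kernel) (by decide +kernel) ?_ ?_ ?_
    (by norm_num)
  · intro A1 B1 A2 B2 h1 h2 h3 h4 h5 h6 h7 h8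
    push_cast at h1 h2 h3 h4 h5 h6 h7 h8
    have k1 : |1 - ((6827 / 625000) * A1 + (7553 / 10000000) * A2)| ≤ 1 / 4 := abs_le.2 ⟨by linarith, by linarith⟩
    have k2 : |-((6827 / 625000) * B1 + (7553 / 10000000) * B2)| ≤ 1 / 4 := abs_le.2 ⟨by linarith, by linarith⟩
    have k3 : |-((663253 / 10000000) * A1 + (30291 / 10000000) * A2)| ≤ 1 / 4 := abs_le.2 ⟨by linarith, by linarith⟩
    have k4 : |1 - ((663253 / 10000000) * B1 + (30291 / 10000000) * B2)| ≤ 1 / 4 := abs_le.2 ⟨by linarith, by linarith⟩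
    constructor <;> linarith
  · rw [abs_le]; push_cast; constructor <;> linarith
  · rw [abs_le]; push_cast; constructor <;> linarith

theorem evP1_box2 : |evQ P1 (1949670747 / 1000000000) (105137963 / 500000000)| ≤ 1 / 10000000 := by decide +kernel

theorem evP2_box2 : |evQ P2 (1949670747 / 1000000000) (105137963 / 500000000)| ≤ 2 / 1000000 := by decide +kernel

theorem box2 : ∃ u s : ℝ, |u - ((1949670747 / 1000000000) : ℚ)| ≤ (1 / 10000000 : ℚ) ∧
    |s - ((105137963 / 500000000) : ℚ)| ≤ (1 / 10000000 : ℚ) ∧ ev P1 u s = 0 ∧ ev P2 u s = 0 := by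
  have e1 : |(evQ P1 (1949670747 / 1000000000) (105137963 / 500000000) : ℝ)| ≤ 1 / 10000000 := by
    have := (Rat.cast_le (K := ℝ)).2 evP1_box2
    push_cast at this
    exact this
  have e2 : |(evQ P2 (1949670747 / 1000000000) (105137963 / 500000000) : ℝ)| ≤ 2 / 1000000 := by
    have := (Rat.cast_le (K := ℝ)).2 evP2_box2
    push_cast at this
    exact this
  rw [abs_le] at e1 e2
  refine box_zero (1949670747 / 1000000000) (105137963 / 500000000) (1 / 10000000)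
    (-12009 / 625000) (-6207 / 10000000) (-1751 / 40000) (-24641 / 10000000) (by norm_num) (by norm_num) (by norm_num)
    (-15269 / 125) (-30537 / 250) (30769 / 1000) (1231 / 40) (2169851 / 1000) (108511 / 50) (-476337 / 500) (-476171 / 500)
    (by decide +kernel) (by decide +kernel) (by decide +kernel) (by decide +kernel)
    (by decide +kernel) (by decide +kernel) (by decide +kernel) (by decide +kernel) ?_ ?_ ?_
    (by norm_num)
  · intro A1 B1 A2 B2 h1 h2 h3 h4 h5 h6 h7 h8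
    push_cast at h1 h2 h3 h4 h5 h6 h7 h8
    have k1 : |1 - ((-12009 / 625000) * A1 + (-6207 / 10000000) * A2)| ≤ 1 / 4 := abs_le.2 ⟨by linarith, by linarith⟩
    have k2 : |-((-12009 / 625000) * B1 + (-6207 / 10000000) * B2)| ≤ 1 / 4 := abs_le.2 ⟨by linarith, by linarith⟩
    have k3 : |-((-1751 / 40000) * A1 + (-24641 / 10000000) * A2)| ≤ 1 / 4 := abs_le.2 ⟨by linarith, by linarith⟩
    have k4 : |1 - ((-1751 / 40000) * B1 + (-24641 / 10000000) * B2)| ≤ 1 / 4 := abs_le.2 ⟨by linarith, by linarith⟩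
    constructor <;> linarith
  · rw [abs_le]; push_cast; constructor <;> linarith
  · rw [abs_le]; push_cast; constructor <;> linarith

end Pool.Agent.Helper48_Lozi
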