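import Mathlib

/-!
# The Lozi map, its turning points and its kneading set

Definitions for problem MP_d76ccc_an.
-/

set_option autoImplicit false

open Filter Topology

namespace Pool.Agent.Helper48_Lozi

/-- The Lozi map `L_{a,b}(x,y) = (1 + y - a|x|, b x)`. -/
def loziMap (a b : ℝ) (p : ℝ × ℝ) : ℝ × ℝ := (1 + p.2 - a * |p.1|, b * p.1)

/-- The parameter set `M = {(a,b) : b > 0, a √2 - b > 2, 2a + b < 4}`. -/
def paramSet : Set (ℝ × ℝ) :=
  {p | 0 < p.2 ∧ 2 < p.1 * Real.sqrt 2 - p.2 ∧ 2 * p.1 + p.2 < 4}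

/-- The fixed point `X = (1/(1+a-b), b/(1+a-b))` of `L_{a,b}` in the half-plane `x > 0`. -/
noncomputable def fixedPoint (a b : ℝ) : ℝ × ℝ := (1 / (1 + a - b), b / (1 + a - b))

/-- `z : ℤ → ℝ²` is a full orbit of `L_{a,b}`. (For `b ≠ 0` the map is a bijection of the plane, so
`z` is determined by `z 0`: `z n = L^n (z 0)`.) -/
def IsOrbit (a b : ℝ) (z : ℤ → ℝ × ℝ) : Prop := ∀ n, z (n + 1) = loziMap a b (z n)

/-- The unstable manifold `W^u` of the fixed point `X`: the points whose backward orbit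
converges to `X`. -/
def unstableManifold (a b : ℝ) : Set (ℝ × ℝ) :=
  {p | ∃ z : ℤ → ℝ × ℝ, IsOrbit a b z ∧ z 0 = p ∧ Tendsto z atBot (𝓝 (fixedPoint a b))}

/-- `T` is a turning point: `T` lies on `W^u` and on the `x`-axis, and `W^u` crosses the `x`-axis
transversally at `T`: it contains a nontrivial segment from `T` going strictly upwards
(direction `v` with `v.2 > 0`) and a nontrivial segment from `T` going strictly downwards
(direction `w` with `w.2 < 0`). -/
def IsTurningPoint (a b : ℝ) (T : ℝ × ℝ) : Prop :=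
  T ∈ unstableManifold a b ∧ T.2 = 0 ∧
    ∃ v w : ℝ × ℝ, 0 < v.2 ∧ w.2 < 0 ∧ ∃ δ : ℝ, 0 < δ ∧ ∀ t : ℝ, 0 ≤ t → t ≤ δ →
      T + t • v ∈ unstableManifold a b ∧ T + t • w ∈ unstableManifold a b

/-- The kneading set: the itineraries of the turning points. The itinerary of `z 0` is the
bi-infinite sequence of the signs of the `x`-coordinates of the points `z n = L^n (z 0)`, where
`1 : SignType` stands for the symbol `+`, `-1` for `-` and `0` for `±`. -/
def kneadingSet (a b : ℝ) : Set (ℤ → SignType) :=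
  {k | ∃ z : ℤ → ℝ × ℝ, IsOrbit a b z ∧ IsTurningPoint a b (z 0) ∧
    ∀ n, k n = SignType.sign (z n).1}

end Pool.Agent.Helper48_Lozi
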