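import Pool.Agent.Helper48_Lozi.Link

/-!
# The two kneading sequences
-/

set_option autoImplicit false

open Filter Topology

namespace Pool.Agent.Helper48_Lozi

/-- `^∞+ - - + ± . + - - - +^∞`. -/
def kOne (n : ℤ) : SignType :=
  if n = -1 then 0 else if n = -4 ∨ n = -3 ∨ n = 1 ∨ n = 2 ∨ n = 3 then -1 else 1

/-- `^∞+ - + + ± . + - - - + + + + - +^∞`. -/
def kTwo (n : ℤ) : SignType :=
  if n = -1 then 0 else if n = -4 ∨ n = 1 ∨ n = 2 ∨ n = 3 ∨ n = 8 then -1 else 1

theorem kOne_ne_kTwo : kOne ≠ kTwo := by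
  intro h
  have := congrFun h (-3)
  revert this
  decide

/-- The point with scaled coordinates. -/
noncomputable def pt (u s z z' : ℝ) : ℝ × ℝ :=
  (z / ((1 + u) * (1 - s)), u * s * (z' / ((1 + u) * (1 - s))))

theorem step_pos {u s z z' z'' : ℝ} (hD : 0 < (1 + u) * (1 - s)) (hz : 0 < z)
    (h : z'' = (1 + u) * (1 - s) + u * s * z' - (u - s) * z) :
    loziMap (u - s) (u * s) (pt u s z z') = pt u s z'' z := by
  have h1 := (mul_ne_zero_iff.1 hD.ne').1
  have h2 := (mul_ne_zero_iff.1 hD.ne').2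
  ext
  · simp only [loziMap, pt]
    rw [abs_div, abs_of_pos hz, abs_of_pos hD, h]
    field_simp
  · simp only [loziMap, pt]

theorem step_neg {u s z z' z'' : ℝ} (hD : 0 < (1 + u) * (1 - s)) (hz : z < 0)
    (h : z'' = (1 + u) * (1 - s) + u * s * z' + (u - s) * z) :
    loziMap (u - s) (u * s) (pt u s z z') = pt u s z'' z := by
  have h1 := (mul_ne_zero_iff.1 hD.ne').1
  have h2 := (mul_ne_zero_iff.1 hD.ne').2
  ext
  · simp only [loziMap, pt]
    rw [abs_div, abs_of_neg hz, abs_of_pos hD, h]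
    field_simp
    ring
  · simp only [loziMap, pt]

theorem sign_pt_pos {u s z z' : ℝ} (hD : 0 < (1 + u) * (1 - s)) (hz : 0 < z) :
    SignType.sign (pt u s z z').1 = 1 := sign_pos (div_pos hz hD)

theorem sign_pt_neg {u s z z' : ℝ} (hD : 0 < (1 + u) * (1 - s)) (hz : z < 0) :
    SignType.sign (pt u s z z').1 = -1 := sign_neg (div_neg_of_neg_of_pos hz hD)

theorem Qseq_zero_eq {u s ε e : ℝ} (hD : 0 < (1 + u) * (1 - s)) (h0 : xi u s ε e 0 = 0) :
    Qseq u s ε e 0 = pt u s ((1 + u) * (1 - s) + u * s * xi u s ε e 1) 0 := by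
  have h1 := (mul_ne_zero_iff.1 hD.ne').1
  have h2 := (mul_ne_zero_iff.1 hD.ne').2
  simp only [Qseq, loziMap, qseq, pt, h0, zero_div, abs_zero, mul_zero, sub_zero, zero_add]
  congr 1
  field_simp

theorem Qseq_succ (u s ε e : ℝ) (j : ℕ) :
    Qseq u s ε e (j + 1) = pt u s (xi u s ε e j) (xi u s ε e (j + 1)) := rfl

/-- The tail of the forward orbit. -/
theorem tail_sign {u s z z' : ℝ} (hu : 1 < u) (hs0 : 0 < s) (hs : s < 1) (hz' : z' < 0)
    (hz : 0 < z) (hfin : z - 1 = s * (z' - 1)) (n : ℕ) :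
    SignType.sign ((loziMap (u - s) (u * s))^[n] (pt u s z z')).1 = 1 := by
  have hD : 0 < (1 + u) * (1 - s) := mul_pos (by linarith) (by linarith)
  have e1 : z = 1 + (z' - 1) * s := by linear_combination hfin
  have e2 : z' = 1 + (z' - 1) := by ring
  have h := stable_tail hu hs0 hs (d := z' - 1) (by linarith) (by linarith) n
  rw [← e1, ← e2] at h
  have : pt u s z z' = (z / ((1 + u) * (1 - s)), u * s * (z' / ((1 + u) * (1 - s)))) := rfl
  rw [this, h.1]
  exact sign_pos (div_pos h.2 hD)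

theorem mem_one {u s e z0 z1 z2 z3 z4 : ℝ} (hu : 1 < u) (hs0 : 0 < s) (hs : s < 1)
    (h : Good u s (-1) e) (h0 : xi u s (-1) e 0 = 0) (hβ : slope0 u s (-1) ≠ 0)
    (e0 : z0 = (1 + u) * (1 - s) + u * s * xi u s (-1) e 1)
    (e1 : z1 = (1 + u) * (1 - s) + u * s * 0 - (u - s) * z0)
    (e2 : z2 = (1 + u) * (1 - s) + u * s * z0 + (u - s) * z1)
    (e3 : z3 = (1 + u) * (1 - s) + u * s * z1 + (u - s) * z2)
    (e4 : z4 = (1 + u) * (1 - s) + u * s * z2 + (u - s) * z3)
    (p0 : 0 < z0) (p1 : z1 < 0) (p2 : z2 < 0) (p3 : z3 < 0) (p4 : 0 < z4)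
    (hfin : z4 - 1 = s * (z3 - 1)) :
    kOne ∈ kneadingSet (u - s) (u * s) := by
  have hD : 0 < (1 + u) * (1 - s) := mul_pos (by linarith) (by linarith)
  refine ⟨mkOrbit (u - s) (u * s) (Qseq u s (-1) e),
    mkOrbit_isOrbit _ _ _ (Qseq_rec hu hs (Or.inr rfl) h),
    isTurningPoint hu hs0 hs (Or.inr rfl) h h0 hβ, ?_⟩
  have hQ0 := Qseq_zero_eq hD h0
  rw [← e0] at hQ0
  intro n
  match n with
  | Int.ofNat 0 =>
    change (1 : SignType) = SignType.sign (Qseq u s (-1) e 0).1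
    rw [hQ0, sign_pt_pos hD p0]
  | Int.ofNat 1 =>
    change (-1 : SignType) = SignType.sign (loziMap (u - s) (u * s) (Qseq u s (-1) e 0)).1
    rw [hQ0, step_pos hD p0 e1, sign_pt_neg hD p1]
  | Int.ofNat 2 =>
    change (-1 : SignType) = SignType.sign
      (loziMap (u - s) (u * s) (loziMap (u - s) (u * s) (Qseq u s (-1) e 0))).1
    rw [hQ0, step_pos hD p0 e1, step_neg hD p1 e2, sign_pt_neg hD p2]
  | Int.ofNat 3 =>
    change (-1 : SignType) = SignType.sign (loziMap (u - s) (u * s)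
      (loziMap (u - s) (u * s) (loziMap (u - s) (u * s) (Qseq u s (-1) e 0)))).1
    rw [hQ0, step_pos hD p0 e1, step_neg hD p1 e2, step_neg hD p2 e3, sign_pt_neg hD p3]
  | Int.ofNat (n + 4) =>
    have hk : kOne (Int.ofNat (n + 4)) = 1 := by
      simp only [kOne, Int.ofNat_eq_natCast]
      rw [if_neg (by omega), if_neg (by omega)]
    rw [hk]
    have h5 : mkOrbit (u - s) (u * s) (Qseq u s (-1) e) (Int.ofNat (n + 4))
        = (loziMap (u - s) (u * s))^[n] (pt u s z4 z3) := by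
      change (loziMap (u - s) (u * s))^[n + 4] (Qseq u s (-1) e 0) = _
      rw [Function.iterate_add_apply]
      congr 1
      change loziMap (u - s) (u * s) (loziMap (u - s) (u * s)
        (loziMap (u - s) (u * s) (loziMap (u - s) (u * s) (Qseq u s (-1) e 0)))) = _
      rw [hQ0, step_pos hD p0 e1, step_neg hD p1 e2, step_neg hD p2 e3, step_neg hD p3 e4]
    rw [h5]
    exact (tail_sign hu hs0 hs p3 p4 hfin n).symm
  | Int.negSucc 0 =>
    change (0 : SignType) = SignType.sign (Qseq u s (-1) e 1).1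
    rw [Qseq_succ, h0]
    simp [pt]
  | Int.negSucc 1 =>
    change (1 : SignType) = SignType.sign (Qseq u s (-1) e 2).1
    rw [Qseq_succ, sign_pt_pos hD h.2.2.2]
  | Int.negSucc 2 =>
    change (-1 : SignType) = SignType.sign (Qseq u s (-1) e 3).1
    rw [Qseq_succ, sign_pt_neg hD]
    have := h.2.2.1
    linarith
  | Int.negSucc 3 =>
    change (-1 : SignType) = SignType.sign (Qseq u s (-1) e 4).1
    rw [Qseq_succ, sign_pt_neg hD]
    have := h.1
    simp only [xi, pow_zero, mul_one]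
    linarith
  | Int.negSucc (j + 4) =>
    have hk : kOne (Int.negSucc (j + 4)) = 1 := by
      simp only [kOne, Int.negSucc_eq]
      rw [if_neg (by omega), if_neg (by omega)]
    rw [hk]
    change (1 : SignType) = SignType.sign (Qseq u s (-1) e (j + 4 + 1)).1
    rw [Qseq_succ, sign_pt_pos hD (xi_tail_pos hu h j)]

theorem mem_two {u s e z0 z1 z2 z3 z4 z5 z6 z7 z8 z9 : ℝ} (hu : 1 < u) (hs0 : 0 < s) (hs : s < 1)
    (h : Good u s 1 e) (h0 : xi u s 1 e 0 = 0) (hβ : slope0 u s 1 ≠ 0)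
    (e0 : z0 = (1 + u) * (1 - s) + u * s * xi u s 1 e 1)
    (e1 : z1 = (1 + u) * (1 - s) + u * s * 0 - (u - s) * z0)
    (e2 : z2 = (1 + u) * (1 - s) + u * s * z0 + (u - s) * z1)
    (e3 : z3 = (1 + u) * (1 - s) + u * s * z1 + (u - s) * z2)
    (e4 : z4 = (1 + u) * (1 - s) + u * s * z2 + (u - s) * z3)
    (e5 : z5 = (1 + u) * (1 - s) + u * s * z3 - (u - s) * z4)
    (e6 : z6 = (1 + u) * (1 - s) + u * s * z4 - (u - s) * z5)
    (e7 : z7 = (1 + u) * (1 - s) + u * s * z5 - (u - s) * z6)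
    (e8 : z8 = (1 + u) * (1 - s) + u * s * z6 - (u - s) * z7)
    (e9 : z9 = (1 + u) * (1 - s) + u * s * z7 + (u - s) * z8)
    (p0 : 0 < z0) (p1 : z1 < 0) (p2 : z2 < 0) (p3 : z3 < 0) (p4 : 0 < z4) (p5 : 0 < z5)
    (p6 : 0 < z6) (p7 : 0 < z7) (p8 : z8 < 0) (p9 : 0 < z9)
    (hfin : z9 - 1 = s * (z8 - 1)) :
    kTwo ∈ kneadingSet (u - s) (u * s) := by
  have hD : 0 < (1 + u) * (1 - s) := mul_pos (by linarith) (by linarith)
  refine ⟨mkOrbit (u - s) (u * s) (Qseq u s 1 e),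
    mkOrbit_isOrbit _ _ _ (Qseq_rec hu hs (Or.inl rfl) h),
    isTurningPoint hu hs0 hs (Or.inl rfl) h h0 hβ, ?_⟩
  have hQ0 := Qseq_zero_eq hD h0
  rw [← e0] at hQ0
  have f0 : (loziMap (u - s) (u * s))^[0] (Qseq u s 1 e 0) = pt u s z0 0 := hQ0
  have f1 : (loziMap (u - s) (u * s))^[1] (Qseq u s 1 e 0) = pt u s z1 z0 := by
    rw [Function.iterate_succ_apply', f0, step_pos hD p0 e1]
  have f2 : (loziMap (u - s) (u * s))^[2] (Qseq u s 1 e 0) = pt u s z2 z1 := by
    rw [Function.iterate_succ_apply', f1, step_neg hD p1 e2]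
  have f3 : (loziMap (u - s) (u * s))^[3] (Qseq u s 1 e 0) = pt u s z3 z2 := by
    rw [Function.iterate_succ_apply', f2, step_neg hD p2 e3]
  have f4 : (loziMap (u - s) (u * s))^[4] (Qseq u s 1 e 0) = pt u s z4 z3 := by
    rw [Function.iterate_succ_apply', f3, step_neg hD p3 e4]
  have f5 : (loziMap (u - s) (u * s))^[5] (Qseq u s 1 e 0) = pt u s z5 z4 := by
    rw [Function.iterate_succ_apply', f4, step_pos hD p4 e5]
  have f6 : (loziMap (u - s) (u * s))^[6] (Qseq u s 1 e 0) = pt u s z6 z5 := by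
    rw [Function.iterate_succ_apply', f5, step_pos hD p5 e6]
  have f7 : (loziMap (u - s) (u * s))^[7] (Qseq u s 1 e 0) = pt u s z7 z6 := by
    rw [Function.iterate_succ_apply', f6, step_pos hD p6 e7]
  have f8 : (loziMap (u - s) (u * s))^[8] (Qseq u s 1 e 0) = pt u s z8 z7 := by
    rw [Function.iterate_succ_apply', f7, step_pos hD p7 e8]
  have f9 : (loziMap (u - s) (u * s))^[9] (Qseq u s 1 e 0) = pt u s z9 z8 := by
    rw [Function.iterate_succ_apply', f8, step_neg hD p8 e9]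
  intro n
  match n with
  | Int.ofNat 0 =>
    change (1 : SignType) = SignType.sign ((loziMap (u - s) (u * s))^[0] (Qseq u s 1 e 0)).1
    rw [f0, sign_pt_pos hD p0]
  | Int.ofNat 1 =>
    change (-1 : SignType) = SignType.sign ((loziMap (u - s) (u * s))^[1] (Qseq u s 1 e 0)).1
    rw [f1, sign_pt_neg hD p1]
  | Int.ofNat 2 =>
    change (-1 : SignType) = SignType.sign ((loziMap (u - s) (u * s))^[2] (Qseq u s 1 e 0)).1
    rw [f2, sign_pt_neg hD p2]
  | Int.ofNat 3 =>
    change (-1 : SignType) = SignType.sign ((loziMap (u - s) (u * s))^[3] (Qseq u s 1 e 0)).1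
    rw [f3, sign_pt_neg hD p3]
  | Int.ofNat 4 =>
    change (1 : SignType) = SignType.sign ((loziMap (u - s) (u * s))^[4] (Qseq u s 1 e 0)).1
    rw [f4, sign_pt_pos hD p4]
  | Int.ofNat 5 =>
    change (1 : SignType) = SignType.sign ((loziMap (u - s) (u * s))^[5] (Qseq u s 1 e 0)).1
    rw [f5, sign_pt_pos hD p5]
  | Int.ofNat 6 =>
    change (1 : SignType) = SignType.sign ((loziMap (u - s) (u * s))^[6] (Qseq u s 1 e 0)).1
    rw [f6, sign_pt_pos hD p6]
  | Int.ofNat 7 =>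
    change (1 : SignType) = SignType.sign ((loziMap (u - s) (u * s))^[7] (Qseq u s 1 e 0)).1
    rw [f7, sign_pt_pos hD p7]
  | Int.ofNat 8 =>
    change (-1 : SignType) = SignType.sign ((loziMap (u - s) (u * s))^[8] (Qseq u s 1 e 0)).1
    rw [f8, sign_pt_neg hD p8]
  | Int.ofNat (n + 9) =>
    have hk : kTwo (Int.ofNat (n + 9)) = 1 := by
      simp only [kTwo, Int.ofNat_eq_natCast]
      rw [if_neg (by omega), if_neg (by omega)]
    rw [hk]
    have h5 : mkOrbit (u - s) (u * s) (Qseq u s 1 e) (Int.ofNat (n + 9))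
        = (loziMap (u - s) (u * s))^[n] (pt u s z9 z8) := by
      change (loziMap (u - s) (u * s))^[n + 9] (Qseq u s 1 e 0) = _
      rw [Function.iterate_add_apply, f9]
    rw [h5]
    exact (tail_sign hu hs0 hs p8 p9 hfin n).symm
  | Int.negSucc 0 =>
    change (0 : SignType) = SignType.sign (Qseq u s 1 e 1).1
    rw [Qseq_succ, h0]
    simp [pt]
  | Int.negSucc 1 =>
    change (1 : SignType) = SignType.sign (Qseq u s 1 e 2).1
    rw [Qseq_succ, sign_pt_pos hD h.2.2.2]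
  | Int.negSucc 2 =>
    change (1 : SignType) = SignType.sign (Qseq u s 1 e 3).1
    rw [Qseq_succ, sign_pt_pos hD]
    have := h.2.2.1
    linarith
  | Int.negSucc 3 =>
    change (-1 : SignType) = SignType.sign (Qseq u s 1 e 4).1
    rw [Qseq_succ, sign_pt_neg hD]
    have := h.1
    simp only [xi, pow_zero, mul_one]
    linarith
  | Int.negSucc (j + 4) =>
    have hk : kTwo (Int.negSucc (j + 4)) = 1 := by
      simp only [kTwo, Int.negSucc_eq]
      rw [if_neg (by omega), if_neg (by omega)]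
    rw [hk]
    change (1 : SignType) = SignType.sign (Qseq u s 1 e (j + 4 + 1)).1
    rw [Qseq_succ, sign_pt_pos hD (xi_tail_pos hu h j)]

end Pool.Agent.Helper48_Lozi
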