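import Pool.Agent.Helper48_Lozi.Defs

/-!
# Construction of orbits and turning points
-/

set_option autoImplicit false

open Filter Topology

namespace Pool.Agent.Helper48_Lozi

/-- The full orbit built from a backward orbit. -/
def mkOrbit (a b : ℝ) (q : ℕ → ℝ × ℝ) : ℤ → ℝ × ℝ
  | Int.ofNat n => (loziMap a b)^[n] (q 0)
  | Int.negSucc j => q (j + 1)

theorem mkOrbit_isOrbit (a b : ℝ) (q : ℕ → ℝ × ℝ) (hq : ∀ j, loziMap a b (q (j + 1)) = q j) :
    IsOrbit a b (mkOrbit a b q) := by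
  intro n
  match n with
  | Int.ofNat n =>
    change (loziMap a b)^[n + 1] (q 0) = loziMap a b ((loziMap a b)^[n] (q 0))
    exact Function.iterate_succ_apply' _ _ _
  | Int.negSucc 0 => exact (hq 0).symm
  | Int.negSucc (j + 1) => exact (hq (j + 1)).symm

theorem mkOrbit_zero (a b : ℝ) (q : ℕ → ℝ × ℝ) : mkOrbit a b q 0 = q 0 := rfl

theorem mkOrbit_neg (a b : ℝ) (q : ℕ → ℝ × ℝ) (n : ℤ) (hn : n ≤ 0) :
    mkOrbit a b q n = q n.natAbs := by
  match n with
  | Int.ofNat 0 => rfl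
  | Int.ofNat (n + 1) => exact absurd hn (by simp only [Int.ofNat_eq_natCast]; omega)
  | Int.negSucc j => rfl

theorem mkOrbit_tendsto (a b : ℝ) (q : ℕ → ℝ × ℝ) (X : ℝ × ℝ) (hq : Tendsto q atTop (𝓝 X)) :
    Tendsto (mkOrbit a b q) atBot (𝓝 X) := by
  intro U hU
  have h1 : ∀ᶠ j in atTop, q j ∈ U := hq hU
  obtain ⟨N, hN⟩ := eventually_atTop.1 h1
  refine eventually_atBot.2 ⟨-(N : ℤ), fun n hn => ?_⟩
  rw [mkOrbit_neg a b q n (by omega)]
  exact hN _ (by omega)

theorem mem_unstable (a b : ℝ) (q : ℕ → ℝ × ℝ) (hq : ∀ j, loziMap a b (q (j + 1)) = q j)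
    (ht : Tendsto q atTop (𝓝 (fixedPoint a b))) : q 0 ∈ unstableManifold a b :=
  ⟨mkOrbit a b q, mkOrbit_isOrbit a b q hq, rfl, mkOrbit_tendsto a b q _ ht⟩

/-- The backward `x`-coordinates, scaled: `x_{-1-j} = X * ξ j`. Here `r = -1/u`. -/
noncomputable def xi (u s ε e : ℝ) : ℕ → ℝ
  | 0 => (1 + u) * (1 - s) + u * s * ((1 + u) * (1 - s) + u * s * (1 + e) + (u - s) * (1 - u * e))
      - (u - s) * ((1 + u) * (1 - s) + u * s * (1 - u * e) - (u - s) * ε *
        ((1 + u) * (1 - s) + u * s * (1 + e) + (u - s) * (1 - u * e)))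
  | 1 => (1 + u) * (1 - s) + u * s * (1 - u * e) - (u - s) * ε *
        ((1 + u) * (1 - s) + u * s * (1 + e) + (u - s) * (1 - u * e))
  | 2 => (1 + u) * (1 - s) + u * s * (1 + e) + (u - s) * (1 - u * e)
  | (j + 3) => 1 - u * e * (-1 / u) ^ j

/-- Conditions on the parameter `e` of the local unstable family. -/
def Good (u s ε e : ℝ) : Prop :=
  1 < u * e ∧ e < u ∧ 0 < ε * xi u s ε e 2 ∧ 0 < xi u s ε e 1

theorem xi_tail_pos {u s ε e : ℝ} (hu : 1 < u) (h : Good u s ε e) (j : ℕ) :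
    0 < xi u s ε e (j + 4) := by
  obtain ⟨h1, h2, -, -⟩ := h
  have hu0 : 0 < u := by linarith
  have he : 0 < e := by
    by_contra hcon
    push Not at hcon
    nlinarith
  change 0 < 1 - u * e * (-1 / u) ^ (j + 1)
  have e1 : u * e * (-1 / u) ^ (j + 1) = -(e * (-1 / u) ^ j) := by
    rw [pow_succ]; field_simp
  rw [e1]
  have habs : |(-1 / u) ^ j| = (1 / u) ^ j := by
    rw [abs_pow, abs_div, abs_neg, abs_one, abs_of_pos hu0]
  rcases Nat.even_or_odd j with hj | hj
  · have : 0 ≤ (-1 / u) ^ j := hj.pow_nonneg _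
    have := mul_nonneg he.le this
    linarith
  · obtain ⟨m, rfl⟩ := hj
    have h3 : -((1 / u) ^ (2 * m + 1)) ≤ (-1 / u) ^ (2 * m + 1) := by
      have := neg_abs_le ((-1 / u) ^ (2 * m + 1))
      rwa [habs] at this
    have h4 : (1 / u) ^ (2 * m + 1) ≤ 1 / u := by
      have h5 : (1 / u) ^ (2 * m) ≤ 1 := pow_le_one₀ (by positivity) (by
        rw [div_le_one hu0]; exact hu.le)
      rw [pow_succ]
      have : 0 < 1 / u := by positivity
      nlinarith
    have h6 : e * (1 / u) < 1 := by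
      rw [mul_one_div, div_lt_one hu0]
      exact h2
    nlinarith

/-- The scaled recurrence. -/
theorem xi_rec {u s ε e : ℝ} (hu : 1 < u) (hε : ε = 1 ∨ ε = -1) (h : Good u s ε e) (j : ℕ) :
    xi u s ε e j = (1 + u) * (1 - s) + u * s * xi u s ε e (j + 2)
      - (u - s) * |xi u s ε e (j + 1)| := by
  have hu0 : 0 < u := by linarith
  match j with
  | 0 =>
    rw [abs_of_pos h.2.2.2]
    rfl
  | 1 =>
    have h2 : |xi u s ε e (1 + 1)| = ε * xi u s ε e 2 := by
      have h3 := h.2.2.1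
      change |xi u s ε e 2| = ε * xi u s ε e 2
      rcases hε with rfl | rfl
      · rw [one_mul] at h3 ⊢
        exact abs_of_pos h3
      · have : xi u s (-1) e 2 < 0 := by linarith
        rw [abs_of_neg this]
        ring
    rw [h2]
    simp only [xi]
    ring
  | 2 =>
    have h3 : xi u s ε e (2 + 1) < 0 := by
      simp only [xi]
      have := h.1
      linarith
    rw [abs_of_neg h3]
    simp only [xi]
    field_simp
    ring
  | (j + 3) =>
    have h3 : 0 < xi u s ε e (j + 3 + 1) := xi_tail_pos hu h j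
    rw [abs_of_pos h3]
    have e1 : (-1 / u) ^ (j + 1) = (-1 / u) ^ j * (-1 / u) := pow_succ _ _
    have e2 : (-1 / u) ^ (j + 2) = (-1 / u) ^ j * (1 / u ^ 2) := by
      rw [pow_add]
      congr 1
      field_simp
    change 1 - u * e * (-1 / u) ^ j = (1 + u) * (1 - s) + u * s * (1 - u * e * (-1 / u) ^ (j + 2))
      - (u - s) * (1 - u * e * (-1 / u) ^ (j + 1))
    rw [e1, e2]
    generalize (-1 / u) ^ j = R
    field_simp
    ring

/-- The backward orbit of the point before the turning point. -/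
noncomputable def qseq (u s ε e : ℝ) (j : ℕ) : ℝ × ℝ :=
  (xi u s ε e j / ((1 + u) * (1 - s)), u * s * (xi u s ε e (j + 1) / ((1 + u) * (1 - s))))

theorem qseq_rec {u s ε e : ℝ} (hu : 1 < u) (hs : s < 1) (hε : ε = 1 ∨ ε = -1)
    (h : Good u s ε e) (j : ℕ) :
    loziMap (u - s) (u * s) (qseq u s ε e (j + 1)) = qseq u s ε e j := by
  have hD : 0 < (1 + u) * (1 - s) := mul_pos (by linarith) (by linarith)
  have hr := xi_rec hu hε h j
  ext
  · simp only [loziMap, qseq]
    rw [hr, abs_div, abs_of_pos hD]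
    generalize |xi u s ε e (j + 1)| = y
    generalize xi u s ε e (j + 1 + 1) = z
    have h1 : 1 + u ≠ 0 := by positivity
    have h2 : 1 - s ≠ 0 := (sub_pos.2 hs).ne'
    field_simp
  · simp only [loziMap, qseq]

theorem qseq_tendsto {u s ε e : ℝ} (hu : 1 < u) (hs : s < 1) :
    Tendsto (qseq u s ε e) atTop (𝓝 (fixedPoint (u - s) (u * s))) := by
  have hD : 0 < (1 + u) * (1 - s) := mul_pos (by linarith) (by linarith)
  have hu0 : 0 < u := by linarith
  have h1 : Tendsto (fun j => xi u s ε e (j + 3)) atTop (𝓝 (1 - u * e * 0)) := by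
    have h2 : Tendsto (fun j : ℕ => (-1 / u) ^ j) atTop (𝓝 0) := by
      apply tendsto_pow_atTop_nhds_zero_of_abs_lt_one
      rw [abs_div, abs_neg, abs_one, abs_of_pos hu0, div_lt_one hu0]
      exact hu
    exact tendsto_const_nhds.sub (h2.const_mul _)
  have h2 : Tendsto (xi u s ε e) atTop (𝓝 1) := by
    rw [← tendsto_add_atTop_iff_nat 3]
    simpa using h1
  have h3 : Tendsto (fun j => xi u s ε e (j + 1)) atTop (𝓝 1) :=
    (tendsto_add_atTop_iff_nat 1).2 h2
  have hX : fixedPoint (u - s) (u * s)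
      = (1 / ((1 + u) * (1 - s)), u * s * (1 / ((1 + u) * (1 - s)))) := by
    have : 1 + (u - s) - u * s = (1 + u) * (1 - s) := by ring
    simp only [fixedPoint, this]
    rw [mul_one_div]
  rw [hX]
  exact (h2.div_const _).prodMk_nhds ((h3.div_const _).const_mul _)

/-- The backward orbit of the turning point. -/
noncomputable def Qseq (u s ε e : ℝ) : ℕ → ℝ × ℝ
  | 0 => loziMap (u - s) (u * s) (qseq u s ε e 0)
  | (j + 1) => qseq u s ε e j

theorem Qseq_rec {u s ε e : ℝ} (hu : 1 < u) (hs : s < 1) (hε : ε = 1 ∨ ε = -1)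
    (h : Good u s ε e) (j : ℕ) :
    loziMap (u - s) (u * s) (Qseq u s ε e (j + 1)) = Qseq u s ε e j := by
  match j with
  | 0 => rfl
  | (j + 1) => exact qseq_rec hu hs hε h j

theorem Qseq_tendsto {u s ε e : ℝ} (hu : 1 < u) (hs : s < 1) :
    Tendsto (Qseq u s ε e) atTop (𝓝 (fixedPoint (u - s) (u * s))) := by
  rw [← tendsto_add_atTop_iff_nat 1]
  exact qseq_tendsto hu hs

theorem Qseq_mem {u s ε e : ℝ} (hu : 1 < u) (hs : s < 1) (hε : ε = 1 ∨ ε = -1)
    (h : Good u s ε e) : Qseq u s ε e 0 ∈ unstableManifold (u - s) (u * s) :=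
  mem_unstable _ _ _ (Qseq_rec hu hs hε h) (Qseq_tendsto hu hs)

/-- The slope of `ξ 0` as a function of `e`. -/
def slope0 (u s ε : ℝ) : ℝ :=
  u * s * (u * s - (u - s) * u) + (u - s) * (u * s * u + (u - s) * ε * (u * s - (u - s) * u))

/-- The slope of `ξ 1` as a function of `e`. -/
def slope1 (u s ε : ℝ) : ℝ :=
  -(u * s * u) - (u - s) * ε * (u * s - (u - s) * u)

theorem isTurningPoint {u s ε e : ℝ} (hu : 1 < u) (hs0 : 0 < s) (hs : s < 1)
    (hε : ε = 1 ∨ ε = -1) (h : Good u s ε e) (h0 : xi u s ε e 0 = 0) (hβ : slope0 u s ε ≠ 0) :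
    IsTurningPoint (u - s) (u * s) (Qseq u s ε e 0) := by
  have hD : 0 < (1 + u) * (1 - s) := mul_pos (by linarith) (by linarith)
  have hu0 : 0 < u := by linarith
  have hus : 0 < u * s := mul_pos hu0 hs0
  refine ⟨Qseq_mem hu hs hε h, ?_, ?_⟩
  · simp [Qseq, loziMap, qseq, h0]
  -- nearby parameters are good
  have hopen : ∀ᶠ e' in 𝓝 e, Good u s ε e' := by
    have c2 : Continuous fun e' => ε * xi u s ε e' 2 := by simp only [xi]; fun_prop
    have c1 : Continuous fun e' => xi u s ε e' 1 := by simp only [xi]; fun_prop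
    have c3 : Continuous fun e' : ℝ => u * e' := by fun_prop
    have c4 : Continuous fun e' : ℝ => e' := continuous_id
    filter_upwards [c3.continuousAt.eventually_const_lt h.1,
      c4.continuousAt.eventually_lt_const h.2.1,
      c2.continuousAt.eventually_const_lt h.2.2.1,
      c1.continuousAt.eventually_const_lt h.2.2.2] with e' h1 h2 h3 h4
    exact ⟨h1, h2, h3, h4⟩
  obtain ⟨ρ, hρ, hball⟩ := Metric.eventually_nhds_iff.1 hopen
  set β := slope0 u s ε with hβdef
  set κ := slope1 u s ε / β with hκ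
  -- the values at `e + t/β`
  have hxi0 : ∀ t : ℝ, xi u s ε (e + t / β) 0 = t := by
    intro t
    have : xi u s ε (e + t / β) 0 = xi u s ε e 0 + β * (t / β) := by
      simp only [xi, hβdef, slope0]
      ring
    rw [this, h0, mul_div_cancel₀ _ hβ, zero_add]
  have hxi1 : ∀ t : ℝ, xi u s ε (e + t / β) 1 = xi u s ε e 1 + κ * t := by
    intro t
    have : xi u s ε (e + t / β) 1 = xi u s ε e 1 + slope1 u s ε * (t / β) := by
      simp only [xi, slope1]
      ring
    rw [this, hκ]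
    ring
  have hQ : ∀ t : ℝ, Qseq u s ε (e + t / β) 0 =
      (1 + u * s * ((xi u s ε e 1 + κ * t) / ((1 + u) * (1 - s)))
        - (u - s) * |t / ((1 + u) * (1 - s))|, u * s * (t / ((1 + u) * (1 - s)))) := by
    intro t
    simp only [Qseq, loziMap, qseq, zero_add]
    rw [hxi0, hxi1]
  have hQ0 : Qseq u s ε e 0 = (1 + u * s * (xi u s ε e 1 / ((1 + u) * (1 - s))), 0) := by
    have := hQ 0
    simpa using this
  refine ⟨(u * s * κ / ((1 + u) * (1 - s)) - (u - s) / ((1 + u) * (1 - s)),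
      u * s / ((1 + u) * (1 - s))),
    (-(u * s * κ / ((1 + u) * (1 - s))) - (u - s) / ((1 + u) * (1 - s)),
      -(u * s / ((1 + u) * (1 - s)))), div_pos hus hD, neg_lt_zero.2 (div_pos hus hD),
    ρ * |β| / 2, by positivity, ?_⟩
  intro t ht0 ht
  have hdist : ∀ t' : ℝ, |t'| ≤ t → Good u s ε (e + t' / β) := by
    intro t' ht'
    apply hball
    rw [Real.dist_eq, add_sub_cancel_left, abs_div, div_lt_iff₀ (abs_pos.2 hβ)]
    have : 0 < ρ * |β| := mul_pos hρ (abs_pos.2 hβ)
    linarith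
  constructor
  · have h1 := Qseq_mem hu hs hε (hdist t (by rw [abs_of_nonneg ht0]))
    convert h1 using 1
    rw [hQ t, hQ0, abs_div, abs_of_nonneg ht0, abs_of_pos hD]
    ext
    · simp only [Prod.smul_mk, Prod.mk_add_mk, smul_eq_mul]
      ring
    · simp only [Prod.smul_mk, Prod.mk_add_mk, smul_eq_mul]
      ring
  · have h1 := Qseq_mem hu hs hε (hdist (-t) (by rw [abs_neg, abs_of_nonneg ht0]))
    convert h1 using 1
    rw [hQ (-t), hQ0, abs_div, abs_neg, abs_of_nonneg ht0, abs_of_pos hD]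
    ext
    · simp only [Prod.smul_mk, Prod.mk_add_mk, smul_eq_mul]
      ring
    · simp only [Prod.smul_mk, Prod.mk_add_mk, smul_eq_mul]
      ring

/-- Forward orbit on the local stable manifold of `X`. -/
theorem stable_tail {u s d : ℝ} (hu : 1 < u) (hs0 : 0 < s) (hs : s < 1) (hd : d < 0)
    (hd' : 0 < 1 + d * s) (j : ℕ) :
    (loziMap (u - s) (u * s))^[j]
      ((1 + d * s) / ((1 + u) * (1 - s)), u * s * ((1 + d) / ((1 + u) * (1 - s)))) =
      ((1 + d * s ^ (j + 1)) / ((1 + u) * (1 - s)),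
        u * s * ((1 + d * s ^ j) / ((1 + u) * (1 - s)))) ∧
    0 < 1 + d * s ^ (j + 1) := by
  have hD : 0 < (1 + u) * (1 - s) := mul_pos (by linarith) (by linarith)
  have hpos : ∀ j : ℕ, 0 < 1 + d * s ^ (j + 1) := by
    intro j
    have h1 : s ^ (j + 1) ≤ s := by
      have h5 : s ^ j ≤ 1 := pow_le_one₀ hs0.le hs.le
      rw [pow_succ]
      nlinarith
    nlinarith
  refine ⟨?_, hpos j⟩
  induction j with
  | zero => simp
  | succ j ih =>
    rw [Function.iterate_succ_apply', ih]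
    ext
    · simp only [loziMap]
      rw [abs_div, abs_of_pos (hpos j), abs_of_pos hD]
      have : (1 + d * s ^ (j + 1 + 1)) = (1 + u) * (1 - s) + u * s * (1 + d * s ^ j)
          - (u - s) * (1 + d * s ^ (j + 1)) := by ring
      rw [this]
      have h1 : 1 + u ≠ 0 := by positivity
      have h2 : 1 - s ≠ 0 := (sub_pos.2 hs).ne'
      field_simp
    · simp only [loziMap]

end Pool.Agent.Helper48_Lozi
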