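import Pool.Agent.Helper48_Lozi.Numeric
import Pool.Agent.Helper48_Lozi.Orbits

/-!
# The two polynomial equations
-/

set_option autoImplicit false

namespace Pool.Agent.Helper48_Lozi

/-- First polynomial. -/
def P1 : Poly2 := [(4, 0, 4), (-8, 0, 5), (8, 0, 6), (-4, 0, 8), (-16, 1, 3), (36, 1, 4), (-40, 1, 5), (20, 1, 7), (20, 2, 2), (-56, 2, 3), (76, 2, 4), (-48, 2, 6), (8, 2, 8), (-10, 3, 1), (40, 3, 2), (-76, 3, 3), (76, 3, 5), (-36, 3, 7), (4, 3, 8), (2, 4, 0), (-14, 4, 1), (44, 4, 2), (-76, 4, 4), (64, 4, 6), (-16, 4, 7), (2, 5, 0), (-14, 5, 1), (52, 5, 3), (-64, 5, 5), (24, 5, 6), (2, 6, 0), (-24, 6, 2), (40, 6, 4), (-20, 6, 5), (7, 7, 1), (-14, 7, 3), (10, 7, 4), (-1, 8, 0), (2, 8, 2), (-2, 8, 3)]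

/-- Second polynomial. -/
def P2 : Poly2 := [(-4, 0, 4), (8, 0, 9), (-8, 0, 10), (8, 0, 11), (-4, 0, 13), (12, 1, 3), (-40, 1, 8), (56, 1, 9), (-56, 1, 10), (28, 1, 12), (-16, 2, 2), (96, 2, 7), (-176, 2, 8), (192, 2, 9), (-96, 2, 11), (10, 3, 1), (-148, 3, 6), (340, 3, 7), (-420, 3, 8), (224, 3, 10), (-4, 3, 13), (-2, 4, 0), (172, 4, 5), (-468, 4, 6), (660, 4, 7), (-400, 4, 9), (28, 4, 12), (-164, 5, 4), (496, 5, 5), (-792, 5, 6), (568, 5, 8), (-88, 5, 11), (124, 6, 3), (-412, 6, 4), (744, 6, 5), (-656, 6, 7), (176, 6, 10), (-64, 7, 2), (252, 7, 3), (-540, 7, 4), (624, 7, 6), (-256, 7, 9), (18, 8, 1), (-100, 8, 2), (288, 8, 3), (-488, 8, 5), (284, 8, 8), (-2, 9, 0), (22, 9, 1), (-104, 9, 2), (304, 9, 4), (-240, 9, 7), (-2, 10, 0), (22, 10, 1), (-148, 10, 3), (152, 10, 6), (-2, 11, 0), (52, 11, 2), (-68, 11, 5), (-11, 12, 1), (18, 12, 4), (1, 13, 0), (-2, 13, 3)]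

/-- Final condition for the first sequence, as a function of `e`. -/
noncomputable def Phi1 (u s e : ℝ) : ℝ :=
  let D := (1 + u) * (1 - s)
  let b := u * s
  let a := u - s
  let z0 := D + b * xi u s (-1) e 1
  let z1 := D - a * z0
  let z2 := D + b * z0 + a * z1
  let z3 := D + b * z1 + a * z2
  let z4 := D + b * z2 + a * z3
  z4 - 1 - s * (z3 - 1)

/-- Final condition for the second sequence, as a function of `e`. -/
noncomputable def Phi2 (u s e : ℝ) : ℝ :=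
  let D := (1 + u) * (1 - s)
  let b := u * s
  let a := u - s
  let z0 := D + b * xi u s 1 e 1
  let z1 := D - a * z0
  let z2 := D + b * z0 + a * z1
  let z3 := D + b * z1 + a * z2
  let z4 := D + b * z2 + a * z3
  let z5 := D + b * z3 - a * z4
  let z6 := D + b * z4 - a * z5
  let z7 := D + b * z5 - a * z6
  let z8 := D + b * z6 - a * z7
  let z9 := D + b * z7 + a * z8
  z9 - 1 - s * (z8 - 1)

theorem link1 (u s e : ℝ) : slope0 u s (-1) * Phi1 u s e
    - (Phi1 u s 1 - Phi1 u s 0) * xi u s (-1) e 0 = u * ev P1 u s := by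
  simp only [slope0, Phi1, xi, ev, P1, List.map_cons, List.map_nil, List.sum_cons, List.sum_nil]
  push_cast
  ring

theorem link2 (u s e : ℝ) : slope0 u s 1 * Phi2 u s e
    - (Phi2 u s 1 - Phi2 u s 0) * xi u s 1 e 0 = u * ev P2 u s := by
  simp only [slope0, Phi2, xi, ev, P2, List.map_cons, List.map_nil, List.sum_cons, List.sum_nil]
  push_cast
  ring

end Pool.Agent.Helper48_Lozi
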