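import Mathlib

/-!
# Verified numerics in two variables

* `exists_zero`: a quantitative two-dimensional Newton / contraction lemma.
* `slope`: slope enclosures for sparse integer polynomials on small positive boxes.
-/

set_option autoImplicit false

open Set

namespace Pool.Agent.Helper48_Lozi

/-- Contraction lemma in the plane (sup norm): if `(u, s) ↦ (u - f u s, s - g u s)` has slopes
bounded by `1/2` on the box of radius `δ` and `f`, `g` are at most `δ/2` at the centre, then `f`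
and `g` have a common zero in the box. -/
theorem exists_zero (f g : ℝ → ℝ → ℝ) (u0 s0 δ : ℝ) (hδ : 0 < δ)
    (hslope : ∀ u s u' s', |u - u0| ≤ δ → |s - s0| ≤ δ → |u' - u0| ≤ δ → |s' - s0| ≤ δ →
      ∃ A B C D : ℝ, |A| + |B| ≤ 1 / 2 ∧ |C| + |D| ≤ 1 / 2 ∧
        (u' - f u' s') - (u - f u s) = A * (u' - u) + B * (s' - s) ∧
        (s' - g u' s') - (s - g u s) = C * (u' - u) + D * (s' - s))
    (hf0 : |f u0 s0| ≤ δ / 2) (hg0 : |g u0 s0| ≤ δ / 2) :
    ∃ u s, |u - u0| ≤ δ ∧ |s - s0| ≤ δ ∧ f u s = 0 ∧ g u s = 0 := by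
  let T : ℝ × ℝ → ℝ × ℝ := fun z => (z.1 - f z.1 z.2, z.2 - g z.1 z.2)
  let S : Set (ℝ × ℝ) := Metric.closedBall (u0, s0) δ
  have hS : ∀ z, z ∈ S ↔ |z.1 - u0| ≤ δ ∧ |z.2 - s0| ≤ δ := by
    intro z
    rw [Metric.mem_closedBall, Prod.dist_eq, max_le_iff, Real.dist_eq, Real.dist_eq]
  have hlip : ∀ z ∈ S, ∀ z' ∈ S, dist (T z') (T z) ≤ 1 / 2 * dist z' z := by
    intro z hz z' hz'
    rw [hS] at hz hz'
    obtain ⟨A, B, C, D, h1, h2, h3, h4⟩ := hslope z.1 z.2 z'.1 z'.2 hz.1 hz.2 hz'.1 hz'.2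
    have hd1 : |z'.1 - z.1| ≤ dist z' z := by
      rw [Prod.dist_eq, ← Real.dist_eq]; exact le_max_left _ _
    have hd2 : |z'.2 - z.2| ≤ dist z' z := by
      rw [Prod.dist_eq, ← Real.dist_eq]; exact le_max_right _ _
    have key : ∀ A B : ℝ, |A| + |B| ≤ 1 / 2 →
        |A * (z'.1 - z.1) + B * (z'.2 - z.2)| ≤ 1 / 2 * dist z' z := by
      intro A B hAB
      calc |A * (z'.1 - z.1) + B * (z'.2 - z.2)|
          ≤ |A * (z'.1 - z.1)| + |B * (z'.2 - z.2)| := abs_add_le _ _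
        _ = |A| * |z'.1 - z.1| + |B| * |z'.2 - z.2| := by rw [abs_mul, abs_mul]
        _ ≤ |A| * dist z' z + |B| * dist z' z := by gcongr
        _ = (|A| + |B|) * dist z' z := by ring
        _ ≤ 1 / 2 * dist z' z := by gcongr
    rw [Prod.dist_eq, max_le_iff]
    constructor
    · change dist (z'.1 - f z'.1 z'.2) (z.1 - f z.1 z.2) ≤ _
      rw [Real.dist_eq, h3]
      exact key A B h1
    · change dist (z'.2 - g z'.1 z'.2) (z.2 - g z.1 z.2) ≤ _
      rw [Real.dist_eq, h4]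
      exact key C D h2
  have hc : (u0, s0) ∈ S := Metric.mem_closedBall_self hδ.le
  have hmaps : MapsTo T S S := by
    intro z hz
    have h1 := hlip (u0, s0) hc z hz
    have h2 : dist (T (u0, s0)) (u0, s0) ≤ δ / 2 := by
      rw [Prod.dist_eq, max_le_iff]
      constructor
      · change dist (u0 - f u0 s0) u0 ≤ _
        rw [Real.dist_eq]
        simpa using hf0
      · change dist (s0 - g u0 s0) s0 ≤ _
        rw [Real.dist_eq]
        simpa using hg0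
    have h3 : dist z (u0, s0) ≤ δ := hz
    have h4 := dist_triangle (T z) (T (u0, s0)) (u0, s0)
    change dist (T z) (u0, s0) ≤ δ
    linarith
  have hcontr : ContractingWith (1 / 2 : NNReal) (hmaps.restrict T S S) := by
    refine ⟨by rw [← NNReal.coe_lt_coe]; norm_num, LipschitzWith.of_dist_le_mul ?_⟩
    intro z z'
    have h5 := hlip z'.1 z'.2 z.1 z.2
    have h6 : ((1 / 2 : NNReal) : ℝ) = 1 / 2 := by norm_num
    rw [h6]
    exact h5
  obtain ⟨z, hz, hfix, -⟩ := hcontr.exists_fixedPoint' (Metric.isClosed_closedBall.isComplete)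
    hmaps hc (edist_ne_top _ _)
  rw [hS] at hz
  have h1 : z.1 - f z.1 z.2 = z.1 := congrArg Prod.fst hfix
  have h2 : z.2 - g z.1 z.2 = z.2 := congrArg Prod.snd hfix
  exact ⟨z.1, z.2, hz.1, hz.2, by linarith, by linarith⟩

/-- Sparse integer polynomials in two variables. -/
abbrev Poly2 := List (ℤ × ℕ × ℕ)

/-- Evaluation. -/
noncomputable def ev (p : Poly2) (u s : ℝ) : ℝ :=
  (p.map fun t => (t.1 : ℝ) * u ^ t.2.1 * s ^ t.2.2).sum

/-- Rational evaluation. -/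
def evQ (p : Poly2) (u s : ℚ) : ℚ :=
  (p.map fun t => (t.1 : ℚ) * u ^ t.2.1 * s ^ t.2.2).sum

theorem ev_evQ (p : Poly2) (u s : ℚ) : ev p u s = (evQ p u s : ℝ) := by
  induction p with
  | nil => simp [ev, evQ]
  | cons t p ih =>
    simp only [ev, evQ, List.map_cons, List.sum_cons] at ih ⊢
    rw [ih]
    push_cast
    ring

/-- Lower bound of the slope in `u` (with `x ≤ y`: lower corner `(u1,s1)`, upper `(u2,s2)`). -/
def bdU (p : Poly2) (u1 u2 s1 s2 : ℚ) : ℚ :=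
  (p.map fun t => if 0 ≤ t.1 then (t.1 : ℚ) * (t.2.1 * u1 ^ (t.2.1 - 1) * s1 ^ t.2.2)
    else (t.1 : ℚ) * (t.2.1 * u2 ^ (t.2.1 - 1) * s2 ^ t.2.2)).sum

/-- Lower bound of the slope in `s`. -/
def bdS (p : Poly2) (u1 u2 s1 s2 : ℚ) : ℚ :=
  (p.map fun t => if 0 ≤ t.1 then (t.1 : ℚ) * (u1 ^ t.2.1 * (t.2.2 * s1 ^ (t.2.2 - 1)))
    else (t.1 : ℚ) * (u2 ^ t.2.1 * (t.2.2 * s2 ^ (t.2.2 - 1)))).sum

theorem geom_bounds {x y l h : ℝ} (hl : 0 ≤ l) (hx : l ≤ x) (hx' : x ≤ h) (hy : l ≤ y)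
    (hy' : y ≤ h) (i : ℕ) :
    ∃ G : ℝ, (i : ℝ) * l ^ (i - 1) ≤ G ∧ G ≤ (i : ℝ) * h ^ (i - 1) ∧
      x ^ i - y ^ i = G * (x - y) := by
  refine ⟨∑ k ∈ Finset.range i, x ^ k * y ^ (i - 1 - k), ?_, ?_, (geom_sum₂_mul x y i).symm⟩
  · have : ∀ k ∈ Finset.range i, l ^ (i - 1) ≤ x ^ k * y ^ (i - 1 - k) := by
      intro k hk
      have hk' : k < i := Finset.mem_range.1 hk
      have e : l ^ (i - 1) = l ^ k * l ^ (i - 1 - k) := by
        rw [← pow_add]; congr 1; omega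
      rw [e]
      have hx0 := hl.trans hx
      have hy0 := hl.trans hy
      have hxk : 0 ≤ x ^ k := pow_nonneg hx0 _
      gcongr
    calc (i : ℝ) * l ^ (i - 1) = ∑ _k ∈ Finset.range i, l ^ (i - 1) := by simp
      _ ≤ _ := Finset.sum_le_sum this
  · have : ∀ k ∈ Finset.range i, x ^ k * y ^ (i - 1 - k) ≤ h ^ (i - 1) := by
      intro k hk
      have hk' : k < i := Finset.mem_range.1 hk
      have e : h ^ (i - 1) = h ^ k * h ^ (i - 1 - k) := by
        rw [← pow_add]; congr 1; omega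
      rw [e]
      have hx0 := hl.trans hx
      have hy0 := hl.trans hy
      have hh0 : 0 ≤ h ^ k := pow_nonneg (hx0.trans hx') _
      gcongr
    calc ∑ k ∈ Finset.range i, x ^ k * y ^ (i - 1 - k)
        ≤ ∑ _k ∈ Finset.range i, h ^ (i - 1) := Finset.sum_le_sum this
      _ = (i : ℝ) * h ^ (i - 1) := by simp

/-- Slope enclosure for sparse polynomials on positive boxes. -/
theorem slope (p : Poly2) (u1 u2 s1 s2 : ℚ) (hu1 : 0 ≤ u1) (hs1 : 0 ≤ s1) {u u' s s' : ℝ}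
    (hu : (u1 : ℝ) ≤ u) (hu' : u ≤ u2) (hv : (u1 : ℝ) ≤ u') (hv' : u' ≤ u2)
    (hs : (s1 : ℝ) ≤ s) (hs' : s ≤ s2) (ht : (s1 : ℝ) ≤ s') (ht' : s' ≤ s2) :
    ∃ A B : ℝ, (bdU p u1 u2 s1 s2 : ℝ) ≤ A ∧ A ≤ (bdU p u2 u1 s2 s1 : ℝ) ∧
      (bdS p u1 u2 s1 s2 : ℝ) ≤ B ∧ B ≤ (bdS p u2 u1 s2 s1 : ℝ) ∧
      ev p u' s' - ev p u s = A * (u' - u) + B * (s' - s) := by
  have hu1' : (0 : ℝ) ≤ u1 := by exact_mod_cast hu1
  have hs1' : (0 : ℝ) ≤ s1 := by exact_mod_cast hs1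
  have hu0 : 0 ≤ u := hu1'.trans hu
  have hs0 : 0 ≤ s' := hs1'.trans ht
  have hu20 : (0 : ℝ) ≤ u2 := hu0.trans hu'
  have hs20 : (0 : ℝ) ≤ s2 := hs0.trans ht'
  induction p with
  | nil => exact ⟨0, 0, by simp [bdU], by simp [bdU], by simp [bdS], by simp [bdS], by simp [ev]⟩
  | cons t p ih =>
    obtain ⟨A, B, hA1, hA2, hB1, hB2, hAB⟩ := ih
    obtain ⟨G, hG1, hG2, hG⟩ := geom_bounds hu1' hv hv' hu hu' t.2.1
    obtain ⟨H, hH1, hH2, hH⟩ := geom_bounds hs1' ht ht' hs hs' t.2.2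
    have hG0 : 0 ≤ G := le_trans (by positivity) hG1
    have hH0 : 0 ≤ H := le_trans (by positivity) hH1
    have hA3 : (t.2.1 : ℝ) * (u1 : ℝ) ^ (t.2.1 - 1) * (s1 : ℝ) ^ t.2.2 ≤ G * s' ^ t.2.2 := by
      gcongr
    have hA4 : G * s' ^ t.2.2 ≤ (t.2.1 : ℝ) * (u2 : ℝ) ^ (t.2.1 - 1) * (s2 : ℝ) ^ t.2.2 := by
      gcongr
    have hB3 : (u1 : ℝ) ^ t.2.1 * ((t.2.2 : ℝ) * (s1 : ℝ) ^ (t.2.2 - 1)) ≤ u ^ t.2.1 * H := by
      gcongr
    have hB4 : u ^ t.2.1 * H ≤ (u2 : ℝ) ^ t.2.1 * ((t.2.2 : ℝ) * (s2 : ℝ) ^ (t.2.2 - 1)) := by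
      gcongr
    refine ⟨t.1 * (G * s' ^ t.2.2) + A, t.1 * (u ^ t.2.1 * H) + B, ?_, ?_, ?_, ?_, ?_⟩
    · simp only [bdU, List.map_cons, List.sum_cons] at hA1 ⊢
      rw [Rat.cast_add]
      refine add_le_add ?_ hA1
      split_ifs with h0
      · have : (0 : ℝ) ≤ t.1 := by exact_mod_cast h0
        push_cast
        exact mul_le_mul_of_nonneg_left hA3 this
      · have : (t.1 : ℝ) ≤ 0 := by exact_mod_cast (not_le.1 h0).le
        push_cast
        exact mul_le_mul_of_nonpos_left hA4 this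
    · simp only [bdU, List.map_cons, List.sum_cons] at hA2 ⊢
      rw [Rat.cast_add]
      refine add_le_add ?_ hA2
      split_ifs with h0
      · have : (0 : ℝ) ≤ t.1 := by exact_mod_cast h0
        push_cast
        exact mul_le_mul_of_nonneg_left hA4 this
      · have : (t.1 : ℝ) ≤ 0 := by exact_mod_cast (not_le.1 h0).le
        push_cast
        exact mul_le_mul_of_nonpos_left hA3 this
    · simp only [bdS, List.map_cons, List.sum_cons] at hB1 ⊢
      rw [Rat.cast_add]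
      refine add_le_add ?_ hB1
      split_ifs with h0
      · have : (0 : ℝ) ≤ t.1 := by exact_mod_cast h0
        push_cast
        exact mul_le_mul_of_nonneg_left hB3 this
      · have : (t.1 : ℝ) ≤ 0 := by exact_mod_cast (not_le.1 h0).le
        push_cast
        exact mul_le_mul_of_nonpos_left hB4 this
    · simp only [bdS, List.map_cons, List.sum_cons] at hB2 ⊢
      rw [Rat.cast_add]
      refine add_le_add ?_ hB2
      split_ifs with h0
      · have : (0 : ℝ) ≤ t.1 := by exact_mod_cast h0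
        push_cast
        exact mul_le_mul_of_nonneg_left hB4 this
      · have : (t.1 : ℝ) ≤ 0 := by exact_mod_cast (not_le.1 h0).le
        push_cast
        exact mul_le_mul_of_nonpos_left hB3 this
    · simp only [ev, List.map_cons, List.sum_cons] at hAB ⊢
      have e1 : (t.1 : ℝ) * u' ^ t.2.1 * s' ^ t.2.2 - (t.1 : ℝ) * u ^ t.2.1 * s ^ t.2.2
          = t.1 * ((u' ^ t.2.1 - u ^ t.2.1) * s' ^ t.2.2
            + u ^ t.2.1 * (s' ^ t.2.2 - s ^ t.2.2)) := by ring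
      rw [hG, hH] at e1
      linear_combination e1 + hAB

end Pool.Agent.Helper48_Lozi
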