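import Pool.Agent.Helper48_Lozi.Kneading
import Pool.Agent.Helper48_Lozi.Ball

/-!
# Sign verification by ball arithmetic (generated)
-/

set_option autoImplicit false

namespace Pool.Agent.Helper48_Lozi

theorem sgn_1_1 {u s : ℝ} (bu : Ball u (383165937 / 200000000) (1 / 10000000)) (bs : Ball s (86667729 / 1000000000) (1 / 10000000))
    (hP : ev P1 u s = 0) : kOne ∈ kneadingSet (u - s) (u * s) := by
  have ba : Ball (u - s) (457290489 / 250000000) (1 / 5000000) := (bu.sub bs).mono (by decide +kernel)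
  have bna : Ball (-(u - s)) (-457290489 / 250000000) (1 / 5000000) := ba.neg.mono (by decide +kernel)
  have bb : Ball (u * s) (1660406079 / 10000000000) (501 / 2500000000) := (bu.mul bs).mono (by decide +kernel)
  have bz : Ball (0 : ℝ) 0 0 := by simpa using Ball.const 0
  have bone : Ball (1 : ℝ) 1 0 := by simpa using Ball.const 1
  have bD : Ball ((1 + u) * (1 - s)) (26631213481 / 10000000000) (3831 / 10000000000) :=
    ((bone.add bu).mul (bone.sub bs)).mono (by decide +kernel)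
  have hu1 : 1 < u := by have := (bu.sub bone).pos (by decide +kernel); linarith
  have hs0 : 0 < s := bs.pos (by decide +kernel)
  have hs1 : s < 1 := by have := (bone.sub bs).pos (by decide +kernel); linarith
  have bnu : Ball (-u) (-383165937 / 200000000) (1 / 10000000) := bu.neg.mono (by decide +kernel)
  obtain ⟨w2, hw2⟩ : ∃ w, w = 0 + u * s * 1 + -(u - s) * u := ⟨_, rfl⟩
  have bw2 : Ball w2 (-33383221661 / 10000000000) (7667 / 10000000000) := Ball.lin (-33383221661 / 10000000000) (7667 / 10000000000) hw2 bz bb bone bna bu (by decide +kernel)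
  obtain ⟨w1, hw1⟩ : ∃ w, w = 0 + u * s * (-u) + (u - s) * w2 := ⟨_, rfl⟩
  have bw1 : Ball w1 (-32122187143 / 5000000000) (6177 / 2500000000) := Ball.lin (-32122187143 / 5000000000) (6177 / 2500000000) hw1 bz bb bnu ba bw2 (by decide +kernel)
  obtain ⟨w0, hw0⟩ : ∃ w, w = 0 + u * s * w2 + -(u - s) * w1 := ⟨_, rfl⟩
  have bw0 : Ball w0 (111970394913 / 10000000000) (66009 / 10000000000) := Ball.lin (111970394913 / 10000000000) (66009 / 10000000000) hw0 bz bb bw2 bna bw1 (by decide +kernel)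
  have hsl : slope0 u s (-1) = w0 := by rw [hw0, hw1, hw2, slope0]; ring
  have hne : slope0 u s (-1) ≠ 0 := by rw [hsl]; exact (bw0.pos (by decide +kernel)).ne'
  obtain ⟨e0, he0⟩ : ∃ e : ℝ, e = (((15472285479 / 10000000000) : ℚ) : ℝ) := ⟨_, rfl⟩
  have be0 : Ball e0 (15472285479 / 10000000000) 0 := by rw [he0]; exact Ball.const _
  obtain ⟨v3, hv3⟩ : ∃ w, w = 1 + 0 * 0 + -u * e0 := ⟨_, rfl⟩
  have bv3 : Ball v3 (-3928452763 / 2000000000) (1549 / 10000000000) := Ball.lin (-3928452763 / 2000000000) (1549 / 10000000000) hv3 bone bz bz bnu be0 (by decide +kernel)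
  obtain ⟨v4, hv4⟩ : ∃ w, w = 1 + 0 * 0 + 1 * e0 := ⟨_, rfl⟩
  have bv4 : Ball v4 (25472285479 / 10000000000) (1 / 10000000000) := Ball.lin (25472285479 / 10000000000) (1 / 10000000000) hv4 bone bz bz bone be0 (by decide +kernel)
  obtain ⟨v2, hv2⟩ : ∃ w, w = (1 + u) * (1 - s) + u * s * v4 + (u - s) * v3 := ⟨_, rfl⟩
  have bv2 : Ball v2 (-2534117227 / 5000000000) (157 / 100000000) := Ball.lin (-2534117227 / 5000000000) (157 / 100000000) hv2 bD bb bv4 ba bv3 (by decide +kernel)
  obtain ⟨v1, hv1⟩ : ∃ w, w = (1 + u) * (1 - s) + u * s * v3 + (u - s) * v2 := ⟨_, rfl⟩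
  have bv1 : Ball v1 (14099178409 / 10000000000) (18879 / 5000000000) := Ball.lin (14099178409 / 10000000000) (18879 / 5000000000) hv1 bD bb bv3 ba bv2 (by decide +kernel)
  obtain ⟨v0, hv0⟩ : ∃ w, w = (1 + u) * (1 - s) + u * s * v2 + -(u - s) * v1 := ⟨_, rfl⟩
  have bv0 : Ball v0 (-1 / 2000000000) (79341 / 10000000000) := Ball.lin (-1 / 2000000000) (79341 / 10000000000) hv0 bD bb bv2 bna bv1 (by decide +kernel)
  have hxe0 : xi u s (-1) e0 0 = v0 := by rw [hv0, hv1, hv2, hv3, hv4]; simp only [xi]; ring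
  obtain ⟨e, he⟩ : ∃ e, e = -(xi u s (-1) 0 0) / slope0 u s (-1) := ⟨_, rfl⟩
  have haff : ∀ e, xi u s (-1) e 0 = xi u s (-1) 0 0 + slope0 u s (-1) * e := by
    intro e; simp only [xi, slope0]; ring
  have hmul : slope0 u s (-1) * e = -(xi u s (-1) 0 0) := by rw [he]; field_simp
  have h0 : xi u s (-1) e 0 = 0 := by rw [haff, hmul]; ring
  have be : Ball e (15472285479 / 10000000000) (443 / 625000000) := Ball.root (443 / 625000000) bv0 bw0 (by rw [← hxe0, haff e0, ← hsl]; linear_combination hmul + slope0 u s (-1) * he0) (by decide +kernel) (by decide +kernel)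
  obtain ⟨x3, hx3⟩ : ∃ w, w = 1 + 0 * 0 + -u * e := ⟨_, rfl⟩
  have bx3 : Ball x3 (-3928452763 / 2000000000) (15129 / 10000000000) := Ball.lin (-3928452763 / 2000000000) (15129 / 10000000000) hx3 bone bz bz bnu be (by decide +kernel)
  obtain ⟨x4, hx4⟩ : ∃ w, w = 1 + 0 * 0 + 1 * e := ⟨_, rfl⟩
  have bx4 : Ball x4 (25472285479 / 10000000000) (7089 / 10000000000) := Ball.lin (25472285479 / 10000000000) (7089 / 10000000000) hx4 bone bz bz bone be (by decide +kernel)
  obtain ⟨x2, hx2⟩ : ∃ w, w = (1 + u) * (1 - s) + u * s * x4 + (u - s) * x3 := ⟨_, rfl⟩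
  have bx2 : Ball x2 (-2534117227 / 5000000000) (10429 / 2500000000) := Ball.lin (-2534117227 / 5000000000) (10429 / 2500000000) hx2 bD bb bx4 ba bx3 (by decide +kernel)
  obtain ⟨x1, hx1⟩ : ∃ w, w = (1 + u) * (1 - s) + u * s * x3 + (u - s) * x2 := ⟨_, rfl⟩
  have bx1 : Ball x1 (14099178409 / 10000000000) (219 / 25000000) := Ball.lin (14099178409 / 10000000000) (219 / 25000000) hx1 bD bb bx3 ba bx2 (by decide +kernel)
  have hX2 : xi u s (-1) e 2 = x2 := by rw [hx2, hx3, hx4]; simp only [xi]; ring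
  have hX1 : xi u s (-1) e 1 = x1 := by rw [hx1, hx2, hx3, hx4]; simp only [xi]; ring
  have hgood : Good u s (-1) e := by
    refine ⟨?_, ?_, ?_, ?_⟩
    · have := bx3.neg_of (by decide +kernel); rw [hx3] at this; linarith
    · have := (bu.sub be).pos (by decide +kernel); linarith
    · rw [hX2]; have := bx2.neg_of (by decide +kernel); linarith
    · rw [hX1]; exact bx1.pos (by decide +kernel)
  obtain ⟨z0, hz0⟩ : ∃ w, w = (1 + u) * (1 - s) + u * s * x1 + 0 * 0 := ⟨_, rfl⟩
  have bz0 : Ball z0 (5794449927 / 2000000000) (21203 / 10000000000) := Ball.lin (5794449927 / 2000000000) (21203 / 10000000000) hz0 bD bb bx1 bz bz (by decide +kernel)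
  obtain ⟨z1, hz1⟩ : ∃ w, w = (1 + u) * (1 - s) + u * s * 0 + -(u - s) * z0 := ⟨_, rfl⟩
  have bz1 : Ball z1 (-26363723331 / 10000000000) (48411 / 10000000000) := Ball.lin (-26363723331 / 10000000000) (48411 / 10000000000) hz1 bD bb bz bna bz0 (by decide +kernel)
  obtain ⟨z2, hz2⟩ : ∃ w, w = (1 + u) * (1 - s) + u * s * z0 + (u - s) * z1 := ⟨_, rfl⟩
  have bz2 : Ball z2 (-16781736313 / 10000000000) (106983 / 10000000000) := Ball.lin (-16781736313 / 10000000000) (106983 / 10000000000) hz2 bD bb bz0 ba bz1 (by decide +kernel)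
  obtain ⟨z3, hz3⟩ : ∃ w, w = (1 + u) * (1 - s) + u * s * z1 + (u - s) * z2 := ⟨_, rfl⟩
  have bz3 : Ball z3 (-8442748787 / 10000000000) (1081 / 50000000) := Ball.lin (-8442748787 / 10000000000) (1081 / 50000000) hz3 bD bb bz1 ba bz2 (by decide +kernel)
  obtain ⟨z4, hz4⟩ : ∃ w, w = (1 + u) * (1 - s) + u * s * z2 + (u - s) * z3 := ⟨_, rfl⟩
  have bz4 : Ball z4 (8401608897 / 10000000000) (422113 / 10000000000) := Ball.lin (8401608897 / 10000000000) (422113 / 10000000000) hz4 bD bb bz2 ba bz3 (by decide +kernel)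
  have hPhi : Phi1 u s e = 0 := by
    have h1 := link1 u s e
    rw [hP, h0] at h1
    have h2 : slope0 u s (-1) * Phi1 u s e = 0 := by linear_combination h1
    exact (mul_eq_zero.1 h2).resolve_left hne
  have hfin : z4 - 1 = s * (z3 - 1) := by
    have h3 : Phi1 u s e = z4 - 1 - s * (z3 - 1) := by
      simp only [Phi1, hX1]
      rw [hz4, hz3, hz2, hz1, hz0]
      ring
    linarith
  exact mem_one hu1 hs0 hs1 hgood h0 hne
    (by rw [hX1]; linear_combination hz0) (by linear_combination hz1) (by linear_combination hz2) (by linear_combination hz3) (by linear_combination hz4)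
    (bz0.pos (by decide +kernel)) (bz1.neg_of (by decide +kernel)) (bz2.neg_of (by decide +kernel)) (bz3.neg_of (by decide +kernel)) (bz4.pos (by decide +kernel))
    hfin

theorem sgn_1_2 {u s : ℝ} (bu : Ball u (383165937 / 200000000) (1 / 10000000)) (bs : Ball s (86667729 / 1000000000) (1 / 10000000))
    (hP : ev P2 u s = 0) : kTwo ∈ kneadingSet (u - s) (u * s) := by
  have ba : Ball (u - s) (457290489 / 250000000) (1 / 5000000) := (bu.sub bs).mono (by decide +kernel)
  have bna : Ball (-(u - s)) (-457290489 / 250000000) (1 / 5000000) := ba.neg.mono (by decide +kernel)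
  have bb : Ball (u * s) (1660406079 / 10000000000) (501 / 2500000000) := (bu.mul bs).mono (by decide +kernel)
  have bz : Ball (0 : ℝ) 0 0 := by simpa using Ball.const 0
  have bone : Ball (1 : ℝ) 1 0 := by simpa using Ball.const 1
  have bD : Ball ((1 + u) * (1 - s)) (26631213481 / 10000000000) (3831 / 10000000000) :=
    ((bone.add bu).mul (bone.sub bs)).mono (by decide +kernel)
  have hu1 : 1 < u := by have := (bu.sub bone).pos (by decide +kernel); linarith
  have hs0 : 0 < s := bs.pos (by decide +kernel)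
  have hs1 : s < 1 := by have := (bone.sub bs).pos (by decide +kernel); linarith
  have bnu : Ball (-u) (-383165937 / 200000000) (1 / 10000000) := bu.neg.mono (by decide +kernel)
  obtain ⟨w2, hw2⟩ : ∃ w, w = 0 + u * s * 1 + -(u - s) * u := ⟨_, rfl⟩
  have bw2 : Ball w2 (-33383221661 / 10000000000) (7667 / 10000000000) := Ball.lin (-33383221661 / 10000000000) (7667 / 10000000000) hw2 bz bb bone bna bu (by decide +kernel)
  obtain ⟨w1, hw1⟩ : ∃ w, w = 0 + u * s * (-u) + (-(u - s)) * w2 := ⟨_, rfl⟩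
  have bw1 : Ball w1 (1808820743 / 312500000) (6177 / 2500000000) := Ball.lin (1808820743 / 312500000) (6177 / 2500000000) hw1 bz bb bnu bna bw2 (by decide +kernel)
  obtain ⟨w0, hw0⟩ : ∃ w, w = 0 + u * s * w2 + -(u - s) * w1 := ⟨_, rfl⟩
  have bw0 : Ball w0 (-27854751311 / 2500000000) (2023 / 312500000) := Ball.lin (-27854751311 / 2500000000) (2023 / 312500000) hw0 bz bb bw2 bna bw1 (by decide +kernel)
  have hsl : slope0 u s 1 = w0 := by rw [hw0, hw1, hw2, slope0]; ring
  have hne : slope0 u s 1 ≠ 0 := by rw [hsl]; exact (bw0.neg_of (by decide +kernel)).ne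
  obtain ⟨e0, he0⟩ : ∃ e : ℝ, e = (((12428375979 / 10000000000) : ℚ) : ℝ) := ⟨_, rfl⟩
  have be0 : Ball e0 (12428375979 / 10000000000) 0 := by rw [he0]; exact Ball.const _
  obtain ⟨v3, hv3⟩ : ∃ w, w = 1 + 0 * 0 + -u * e0 := ⟨_, rfl⟩
  have bv3 : Ball v3 (-13810651637 / 10000000000) (311 / 2500000000) := Ball.lin (-13810651637 / 10000000000) (311 / 2500000000) hv3 bone bz bz bnu be0 (by decide +kernel)
  obtain ⟨v4, hv4⟩ : ∃ w, w = 1 + 0 * 0 + 1 * e0 := ⟨_, rfl⟩
  have bv4 : Ball v4 (22428375979 / 10000000000) (1 / 10000000000) := Ball.lin (22428375979 / 10000000000) (1 / 10000000000) hv4 bone bz bz bone be0 (by decide +kernel)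
  obtain ⟨v2, hv2⟩ : ∃ w, w = (1 + u) * (1 - s) + u * s * v4 + (u - s) * v3 := ⟨_, rfl⟩
  have bv2 : Ball v2 (5093316101 / 10000000000) (2673 / 2000000000) := Ball.lin (5093316101 / 10000000000) (2673 / 2000000000) hv2 bD bb bv4 ba bv3 (by decide +kernel)
  obtain ⟨v1, hv1⟩ : ∃ w, w = (1 + u) * (1 - s) + u * s * v3 + (-(u - s)) * v2 := ⟨_, rfl⟩
  have bv1 : Ball v1 (7510792223 / 5000000000) (2017 / 625000000) := Ball.lin (7510792223 / 5000000000) (2017 / 625000000) hv1 bD bb bv3 bna bv2 (by decide +kernel)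
  obtain ⟨v0, hv0⟩ : ∃ w, w = (1 + u) * (1 - s) + u * s * v2 + -(u - s) * v1 := ⟨_, rfl⟩
  have bv0 : Ball v0 (-1 / 2000000000) (17277 / 2500000000) := Ball.lin (-1 / 2000000000) (17277 / 2500000000) hv0 bD bb bv2 bna bv1 (by decide +kernel)
  have hxe0 : xi u s 1 e0 0 = v0 := by rw [hv0, hv1, hv2, hv3, hv4]; simp only [xi]; ring
  obtain ⟨e, he⟩ : ∃ e, e = -(xi u s 1 0 0) / slope0 u s 1 := ⟨_, rfl⟩
  have haff : ∀ e, xi u s 1 e 0 = xi u s 1 0 0 + slope0 u s 1 * e := by
    intro e; simp only [xi, slope0]; ring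
  have hmul : slope0 u s 1 * e = -(xi u s 1 0 0) := by rw [he]; field_simp
  have h0 : xi u s 1 e 0 = 0 := by rw [haff, hmul]; ring
  have be : Ball e (12428375979 / 10000000000) (1551 / 2500000000) := Ball.root (1551 / 2500000000) bv0 bw0 (by rw [← hxe0, haff e0, ← hsl]; linear_combination hmul + slope0 u s 1 * he0) (by decide +kernel) (by decide +kernel)
  obtain ⟨x3, hx3⟩ : ∃ w, w = 1 + 0 * 0 + -u * e := ⟨_, rfl⟩
  have bx3 : Ball x3 (-13810651637 / 10000000000) (1313 / 1000000000) := Ball.lin (-13810651637 / 10000000000) (1313 / 1000000000) hx3 bone bz bz bnu be (by decide +kernel)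
  obtain ⟨x4, hx4⟩ : ∃ w, w = 1 + 0 * 0 + 1 * e := ⟨_, rfl⟩
  have bx4 : Ball x4 (22428375979 / 10000000000) (1241 / 2000000000) := Ball.lin (22428375979 / 10000000000) (1241 / 2000000000) hx4 bone bz bz bone be (by decide +kernel)
  obtain ⟨x2, hx2⟩ : ∃ w, w = (1 + u) * (1 - s) + u * s * x4 + (u - s) * x3 := ⟨_, rfl⟩
  have bx2 : Ball x2 (5093316101 / 10000000000) (36137 / 10000000000) := Ball.lin (5093316101 / 10000000000) (36137 / 10000000000) hx2 bD bb bx4 ba bx3 (by decide +kernel)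
  obtain ⟨x1, hx1⟩ : ∃ w, w = (1 + u) * (1 - s) + u * s * x3 + (-(u - s)) * x2 := ⟨_, rfl⟩
  have bx1 : Ball x1 (7510792223 / 5000000000) (759 / 100000000) := Ball.lin (7510792223 / 5000000000) (759 / 100000000) hx1 bD bb bx3 bna bx2 (by decide +kernel)
  have hX2 : xi u s 1 e 2 = x2 := by rw [hx2, hx3, hx4]; simp only [xi]; ring
  have hX1 : xi u s 1 e 1 = x1 := by rw [hx1, hx2, hx3, hx4]; simp only [xi]; ring
  have hgood : Good u s 1 e := by
    refine ⟨?_, ?_, ?_, ?_⟩
    · have := bx3.neg_of (by decide +kernel); rw [hx3] at this; linarith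
    · have := (bu.sub be).pos (by decide +kernel); linarith
    · rw [hX2]; have := bx2.pos (by decide +kernel); linarith
    · rw [hX1]; exact bx1.pos (by decide +kernel)
  obtain ⟨z0, hz0⟩ : ∃ w, w = (1 + u) * (1 - s) + u * s * x1 + 0 * 0 := ⟨_, rfl⟩
  have bz0 : Ball z0 (14562703247 / 5000000000) (3889 / 2000000000) := Ball.lin (14562703247 / 5000000000) (3889 / 2000000000) hz0 bD bb bx1 bz bz (by decide +kernel)
  obtain ⟨z1, hz1⟩ : ∃ w, w = (1 + u) * (1 - s) + u * s * 0 + -(u - s) * z0 := ⟨_, rfl⟩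
  have bz1 : Ball z1 (-26643872031 / 10000000000) (22613 / 5000000000) := Ball.lin (-26643872031 / 10000000000) (22613 / 5000000000) hz1 bD bb bz bna bz0 (by decide +kernel)
  obtain ⟨z2, hz2⟩ : ∃ w, w = (1 + u) * (1 - s) + u * s * z0 + (u - s) * z1 := ⟨_, rfl⟩
  have bz2 : Ball z2 (-17268743399 / 10000000000) (12619 / 1250000000) := Ball.lin (-17268743399 / 10000000000) (12619 / 1250000000) hz2 bD bb bz0 ba bz1 (by decide +kernel)
  obtain ⟨z3, hz3⟩ : ∃ w, w = (1 + u) * (1 - s) + u * s * z1 + (u - s) * z2 := ⟨_, rfl⟩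
  have bz3 : Ball z3 (-9380079681 / 10000000000) (204793 / 10000000000) := Ball.lin (-9380079681 / 10000000000) (204793 / 10000000000) hz3 bD bb bz1 ba bz2 (by decide +kernel)
  obtain ⟨z4, hz4⟩ : ∃ w, w = (1 + u) * (1 - s) + u * s * z2 + (u - s) * z3 := ⟨_, rfl⟩
  have bz4 : Ball z4 (6606215933 / 10000000000) (400531 / 10000000000) := Ball.lin (6606215933 / 10000000000) (400531 / 10000000000) hz4 bD bb bz2 ba bz3 (by decide +kernel)
  obtain ⟨z5, hz5⟩ : ∃ w, w = (1 + u) * (1 - s) + u * s * z3 + -(u - s) * z4 := ⟨_, rfl⟩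
  have bz5 : Ball z5 (12989900491 / 10000000000) (386837 / 5000000000) := Ball.lin (12989900491 / 10000000000) (386837 / 5000000000) hz5 bD bb bz3 bna bz4 (by decide +kernel)
  obtain ⟨z6, hz6⟩ : ∃ w, w = (1 + u) * (1 - s) + u * s * z4 + -(u - s) * z5 := ⟨_, rfl⟩
  have bz6 : Ball z6 (19837409 / 50000000) (744717 / 5000000000) := Ball.lin (19837409 / 50000000) (744717 / 5000000000) hz6 bD bb bz4 bna bz5 (by decide +kernel)
  obtain ⟨z7, hz7⟩ : ∃ w, w = (1 + u) * (1 - s) + u * s * z5 + -(u - s) * z6 := ⟨_, rfl⟩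
  have bz7 : Ball z7 (4306179537 / 2000000000) (2860107 / 10000000000) := Ball.lin (4306179537 / 2000000000) (2860107 / 10000000000) hz7 bD bb bz5 bna bz6 (by decide +kernel)
  obtain ⟨z8, hz8⟩ : ∃ w, w = (1 + u) * (1 - s) + u * s * z6 + -(u - s) * z7 := ⟨_, rfl⟩
  have bz8 : Ball z8 (-12093522353 / 10000000000) (34299 / 62500000) := Ball.lin (-12093522353 / 10000000000) (34299 / 62500000) hz8 bD bb bz6 bna bz7 (by decide +kernel)
  obtain ⟨z9, hz9⟩ : ∃ w, w = (1 + u) * (1 - s) + u * s * z7 + (u - s) * z8 := ⟨_, rfl⟩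
  have bz9 : Ball z9 (8085205819 / 10000000000) (1052361 / 1000000000) := Ball.lin (8085205819 / 10000000000) (1052361 / 1000000000) hz9 bD bb bz7 ba bz8 (by decide +kernel)
  have hPhi : Phi2 u s e = 0 := by
    have h1 := link2 u s e
    rw [hP, h0] at h1
    have h2 : slope0 u s 1 * Phi2 u s e = 0 := by linear_combination h1
    exact (mul_eq_zero.1 h2).resolve_left hne
  have hfin : z9 - 1 = s * (z8 - 1) := by
    have h3 : Phi2 u s e = z9 - 1 - s * (z8 - 1) := by
      simp only [Phi2, hX1]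
      rw [hz9, hz8, hz7, hz6, hz5, hz4, hz3, hz2, hz1, hz0]
      ring
    linarith
  exact mem_two hu1 hs0 hs1 hgood h0 hne
    (by rw [hX1]; linear_combination hz0) (by linear_combination hz1) (by linear_combination hz2) (by linear_combination hz3) (by linear_combination hz4) (by linear_combination hz5) (by linear_combination hz6) (by linear_combination hz7) (by linear_combination hz8) (by linear_combination hz9)
    (bz0.pos (by decide +kernel)) (bz1.neg_of (by decide +kernel)) (bz2.neg_of (by decide +kernel)) (bz3.neg_of (by decide +kernel)) (bz4.pos (by decide +kernel)) (bz5.pos (by decide +kernel)) (bz6.pos (by decide +kernel)) (bz7.pos (by decide +kernel)) (bz8.neg_of (by decide +kernel)) (bz9.pos (by decide +kernel))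
    hfin

theorem sgn_2_1 {u s : ℝ} (bu : Ball u (1949670747 / 1000000000) (1 / 10000000)) (bs : Ball s (105137963 / 500000000) (1 / 10000000))
    (hP : ev P1 u s = 0) : kOne ∈ kneadingSet (u - s) (u * s) := by
  have ba : Ball (u - s) (1739394821 / 1000000000) (1 / 5000000) := (bu.sub bs).mono (by decide +kernel)
  have bna : Ball (-(u - s)) (-1739394821 / 1000000000) (1 / 5000000) := ba.neg.mono (by decide +kernel)
  have bb : Ball (u * s) (4099688217 / 10000000000) (1081 / 5000000000) := (bu.mul bs).mono (by decide +kernel)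
  have bz : Ball (0 : ℝ) 0 0 := by simpa using Ball.const 0
  have bone : Ball (1 : ℝ) 1 0 := by simpa using Ball.const 1
  have bD : Ball ((1 + u) * (1 - s)) (23294259993 / 10000000000) (3741 / 10000000000) :=
    ((bone.add bu).mul (bone.sub bs)).mono (by decide +kernel)
  have hu1 : 1 < u := by have := (bu.sub bone).pos (by decide +kernel); linarith
  have hs0 : 0 < s := bs.pos (by decide +kernel)
  have hs1 : s < 1 := by have := (bone.sub bs).pos (by decide +kernel); linarith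
  have bnu : Ball (-u) (-1949670747 / 1000000000) (1 / 10000000) := bu.neg.mono (by decide +kernel)
  obtain ⟨w2, hw2⟩ : ∃ w, w = 0 + u * s * 1 + -(u - s) * u := ⟨_, rfl⟩
  have bw2 : Ball w2 (-29812783783 / 10000000000) (3901 / 5000000000) := Ball.lin (-29812783783 / 10000000000) (3901 / 5000000000) hw2 bz bb bone bna bu (by decide +kernel)
  obtain ⟨w1, hw1⟩ : ∃ w, w = 0 + u * s * (-u) + (u - s) * w2 := ⟨_, rfl⟩
  have bw1 : Ball w1 (-598492439 / 100000000) (151 / 62500000) := Ball.lin (-598492439 / 100000000) (151 / 62500000) hw1 bz bb bnu ba bw2 (by decide +kernel)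
  obtain ⟨w0, hw0⟩ : ∃ w, w = 0 + u * s * w2 + -(u - s) * w1 := ⟨_, rfl⟩
  have bw0 : Ball w0 (91879153041 / 10000000000) (1591 / 250000000) := Ball.lin (91879153041 / 10000000000) (1591 / 250000000) hw0 bz bb bw2 bna bw1 (by decide +kernel)
  have hsl : slope0 u s (-1) = w0 := by rw [hw0, hw1, hw2, slope0]; ring
  have hne : slope0 u s (-1) ≠ 0 := by rw [hsl]; exact (bw0.pos (by decide +kernel)).ne'
  obtain ⟨e0, he0⟩ : ∃ e : ℝ, e = (((1925062883 / 1250000000) : ℚ) : ℝ) := ⟨_, rfl⟩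
  have be0 : Ball e0 (1925062883 / 1250000000) 0 := by rw [he0]; exact Ball.const _
  obtain ⟨v3, hv3⟩ : ∃ w, w = 1 + 0 * 0 + -u * e0 := ⟨_, rfl⟩
  have bv3 : Ball v3 (-20025910313 / 10000000000) (771 / 5000000000) := Ball.lin (-20025910313 / 10000000000) (771 / 5000000000) hv3 bone bz bz bnu be0 (by decide +kernel)
  obtain ⟨v4, hv4⟩ : ∃ w, w = 1 + 0 * 0 + 1 * e0 := ⟨_, rfl⟩
  have bv4 : Ball v4 (3175062883 / 1250000000) (1 / 10000000000) := Ball.lin (3175062883 / 1250000000) (1 / 10000000000) hv4 bone bz bz bone be0 (by decide +kernel)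
  obtain ⟨v2, hv2⟩ : ∃ w, w = (1 + u) * (1 - s) + u * s * v4 + (u - s) * v3 := ⟨_, rfl⟩
  have bv2 : Ball v2 (-56264519 / 500000000) (7961 / 5000000000) := Ball.lin (-56264519 / 500000000) (7961 / 5000000000) hv2 bD bb bv4 ba bv3 (by decide +kernel)
  obtain ⟨v1, hv1⟩ : ∃ w, w = (1 + u) * (1 - s) + u * s * v3 + (u - s) * v2 := ⟨_, rfl⟩
  have bv1 : Ball v1 (13126936879 / 10000000000) (2289 / 625000000) := Ball.lin (13126936879 / 10000000000) (2289 / 625000000) hv1 bD bb bv3 ba bv2 (by decide +kernel)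
  obtain ⟨v0, hv0⟩ : ∃ w, w = (1 + u) * (1 - s) + u * s * v2 + -(u - s) * v1 := ⟨_, rfl⟩
  have bv0 : Ball v0 (-1 / 10000000000) (38421 / 5000000000) := Ball.lin (-1 / 10000000000) (38421 / 5000000000) hv0 bD bb bv2 bna bv1 (by decide +kernel)
  have hxe0 : xi u s (-1) e0 0 = v0 := by rw [hv0, hv1, hv2, hv3, hv4]; simp only [xi]; ring
  obtain ⟨e, he⟩ : ∃ e, e = -(xi u s (-1) 0 0) / slope0 u s (-1) := ⟨_, rfl⟩
  have haff : ∀ e, xi u s (-1) e 0 = xi u s (-1) 0 0 + slope0 u s (-1) * e := by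
    intro e; simp only [xi, slope0]; ring
  have hmul : slope0 u s (-1) * e = -(xi u s (-1) 0 0) := by rw [he]; field_simp
  have h0 : xi u s (-1) e 0 = 0 := by rw [haff, hmul]; ring
  have be : Ball e (1925062883 / 1250000000) (1673 / 2000000000) := Ball.root (1673 / 2000000000) bv0 bw0 (by rw [← hxe0, haff e0, ← hsl]; linear_combination hmul + slope0 u s (-1) * he0) (by decide +kernel) (by decide +kernel)
  obtain ⟨x3, hx3⟩ : ∃ w, w = 1 + 0 * 0 + -u * e := ⟨_, rfl⟩
  have bx3 : Ball x3 (-20025910313 / 10000000000) (17851 / 10000000000) := Ball.lin (-20025910313 / 10000000000) (17851 / 10000000000) hx3 bone bz bz bnu be (by decide +kernel)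
  obtain ⟨x4, hx4⟩ : ∃ w, w = 1 + 0 * 0 + 1 * e := ⟨_, rfl⟩
  have bx4 : Ball x4 (3175062883 / 1250000000) (4183 / 5000000000) := Ball.lin (3175062883 / 1250000000) (4183 / 5000000000) hx4 bone bz bz bone be (by decide +kernel)
  obtain ⟨x2, hx2⟩ : ∃ w, w = (1 + u) * (1 - s) + u * s * x4 + (u - s) * x3 := ⟨_, rfl⟩
  have bx2 : Ball x2 (-56264519 / 500000000) (1193 / 250000000) := Ball.lin (-56264519 / 500000000) (1193 / 250000000) hx2 bD bb bx4 ba bx3 (by decide +kernel)
  obtain ⟨x1, hx1⟩ : ∃ w, w = (1 + u) * (1 - s) + u * s * x3 + (u - s) * x2 := ⟨_, rfl⟩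
  have bx1 : Ball x1 (13126936879 / 10000000000) (4931 / 500000000) := Ball.lin (13126936879 / 10000000000) (4931 / 500000000) hx1 bD bb bx3 ba bx2 (by decide +kernel)
  have hX2 : xi u s (-1) e 2 = x2 := by rw [hx2, hx3, hx4]; simp only [xi]; ring
  have hX1 : xi u s (-1) e 1 = x1 := by rw [hx1, hx2, hx3, hx4]; simp only [xi]; ring
  have hgood : Good u s (-1) e := by
    refine ⟨?_, ?_, ?_, ?_⟩
    · have := bx3.neg_of (by decide +kernel); rw [hx3] at this; linarith
    · have := (bu.sub be).pos (by decide +kernel); linarith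
    · rw [hX2]; have := bx2.neg_of (by decide +kernel); linarith
    · rw [hX1]; exact bx1.pos (by decide +kernel)
  obtain ⟨z0, hz0⟩ : ∃ w, w = (1 + u) * (1 - s) + u * s * x1 + 0 * 0 := ⟨_, rfl⟩
  have bz0 : Ball z0 (14337947419 / 5000000000) (11753 / 2500000000) := Ball.lin (14337947419 / 5000000000) (11753 / 2500000000) hz0 bD bb bx1 bz bz (by decide +kernel)
  obtain ⟨z1, hz1⟩ : ∃ w, w = (1 + u) * (1 - s) + u * s * 0 + -(u - s) * z0 := ⟨_, rfl⟩
  have bz1 : Ball z1 (-830763843 / 312500000) (73 / 8000000) := Ball.lin (-830763843 / 312500000) (73 / 8000000) hz1 bD bb bz bna bz0 (by decide +kernel)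
  obtain ⟨z2, hz2⟩ : ∃ w, w = (1 + u) * (1 - s) + u * s * z0 + (u - s) * z1 := ⟨_, rfl⟩
  have bz2 : Ball z2 (-11190359621 / 10000000000) (193253 / 10000000000) := Ball.lin (-11190359621 / 10000000000) (193253 / 10000000000) hz2 bD bb bz0 ba bz1 (by decide +kernel)
  obtain ⟨z3, hz3⟩ : ∃ w, w = (1 + u) * (1 - s) + u * s * z1 + (u - s) * z2 := ⟨_, rfl⟩
  have bz3 : Ball z3 (-7068986339 / 10000000000) (385281 / 10000000000) := Ball.lin (-7068986339 / 10000000000) (385281 / 10000000000) hz3 bD bb bz1 ba bz2 (by decide +kernel)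
  obtain ⟨z4, hz4⟩ : ∃ w, w = (1 + u) * (1 - s) + u * s * z2 + (u - s) * z3 := ⟨_, rfl⟩
  have bz4 : Ball z4 (6410803217 / 10000000000) (756959 / 10000000000) := Ball.lin (6410803217 / 10000000000) (756959 / 10000000000) hz4 bD bb bz2 ba bz3 (by decide +kernel)
  have hPhi : Phi1 u s e = 0 := by
    have h1 := link1 u s e
    rw [hP, h0] at h1
    have h2 : slope0 u s (-1) * Phi1 u s e = 0 := by linear_combination h1
    exact (mul_eq_zero.1 h2).resolve_left hne
  have hfin : z4 - 1 = s * (z3 - 1) := by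
    have h3 : Phi1 u s e = z4 - 1 - s * (z3 - 1) := by
      simp only [Phi1, hX1]
      rw [hz4, hz3, hz2, hz1, hz0]
      ring
    linarith
  exact mem_one hu1 hs0 hs1 hgood h0 hne
    (by rw [hX1]; linear_combination hz0) (by linear_combination hz1) (by linear_combination hz2) (by linear_combination hz3) (by linear_combination hz4)
    (bz0.pos (by decide +kernel)) (bz1.neg_of (by decide +kernel)) (bz2.neg_of (by decide +kernel)) (bz3.neg_of (by decide +kernel)) (bz4.pos (by decide +kernel))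
    hfin

theorem sgn_2_2 {u s : ℝ} (bu : Ball u (1949670747 / 1000000000) (1 / 10000000)) (bs : Ball s (105137963 / 500000000) (1 / 10000000))
    (hP : ev P2 u s = 0) : kTwo ∈ kneadingSet (u - s) (u * s) := by
  have ba : Ball (u - s) (1739394821 / 1000000000) (1 / 5000000) := (bu.sub bs).mono (by decide +kernel)
  have bna : Ball (-(u - s)) (-1739394821 / 1000000000) (1 / 5000000) := ba.neg.mono (by decide +kernel)
  have bb : Ball (u * s) (4099688217 / 10000000000) (1081 / 5000000000) := (bu.mul bs).mono (by decide +kernel)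
  have bz : Ball (0 : ℝ) 0 0 := by simpa using Ball.const 0
  have bone : Ball (1 : ℝ) 1 0 := by simpa using Ball.const 1
  have bD : Ball ((1 + u) * (1 - s)) (23294259993 / 10000000000) (3741 / 10000000000) :=
    ((bone.add bu).mul (bone.sub bs)).mono (by decide +kernel)
  have hu1 : 1 < u := by have := (bu.sub bone).pos (by decide +kernel); linarith
  have hs0 : 0 < s := bs.pos (by decide +kernel)
  have hs1 : s < 1 := by have := (bone.sub bs).pos (by decide +kernel); linarith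
  have bnu : Ball (-u) (-1949670747 / 1000000000) (1 / 10000000) := bu.neg.mono (by decide +kernel)
  obtain ⟨w2, hw2⟩ : ∃ w, w = 0 + u * s * 1 + -(u - s) * u := ⟨_, rfl⟩
  have bw2 : Ball w2 (-29812783783 / 10000000000) (3901 / 5000000000) := Ball.lin (-29812783783 / 10000000000) (3901 / 5000000000) hw2 bz bb bone bna bu (by decide +kernel)
  obtain ⟨w1, hw1⟩ : ∃ w, w = 0 + u * s * (-u) + (-(u - s)) * w2 := ⟨_, rfl⟩
  have bw1 : Ball w1 (43863159523 / 10000000000) (151 / 62500000) := Ball.lin (43863159523 / 10000000000) (151 / 62500000) hw1 bz bb bnu bna bw2 (by decide +kernel)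
  obtain ⟨w0, hw0⟩ : ∃ w, w = 0 + u * s * w2 + -(u - s) * w1 := ⟨_, rfl⟩
  have bw0 : Ball w0 (-44258832173 / 5000000000) (30221 / 5000000000) := Ball.lin (-44258832173 / 5000000000) (30221 / 5000000000) hw0 bz bb bw2 bna bw1 (by decide +kernel)
  have hsl : slope0 u s 1 = w0 := by rw [hw0, hw1, hw2, slope0]; ring
  have hne : slope0 u s 1 ≠ 0 := by rw [hsl]; exact (bw0.neg_of (by decide +kernel)).ne
  obtain ⟨e0, he0⟩ : ∃ e : ℝ, e = (((1828908073 / 1250000000) : ℚ) : ℝ) := ⟨_, rfl⟩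
  have be0 : Ball e0 (1828908073 / 1250000000) 0 := by rw [he0]; exact Ball.const _
  obtain ⟨v3, hv3⟩ : ∃ w, w = 1 + 0 * 0 + -u * e0 := ⟨_, rfl⟩
  have bv3 : Ball v3 (-18526148551 / 10000000000) (293 / 2000000000) := Ball.lin (-18526148551 / 10000000000) (293 / 2000000000) hv3 bone bz bz bnu be0 (by decide +kernel)
  obtain ⟨v4, hv4⟩ : ∃ w, w = 1 + 0 * 0 + 1 * e0 := ⟨_, rfl⟩
  have bv4 : Ball v4 (3078908073 / 1250000000) (1 / 10000000000) := Ball.lin (3078908073 / 1250000000) (1 / 10000000000) hv4 bone bz bz bone be0 (by decide +kernel)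
  obtain ⟨v2, hv2⟩ : ∃ w, w = (1 + u) * (1 - s) + u * s * v4 + (u - s) * v3 := ⟨_, rfl⟩
  have bv2 : Ball v2 (1168023669 / 10000000000) (7661 / 5000000000) := Ball.lin (1168023669 / 10000000000) (7661 / 5000000000) hv2 bD bb bv4 ba bv3 (by decide +kernel)
  obtain ⟨v1, hv1⟩ : ∃ w, w = (1 + u) * (1 - s) + u * s * v3 + (-(u - s)) * v2 := ⟨_, rfl⟩
  have bv1 : Ball v1 (683373119 / 500000000) (35233 / 10000000000) := Ball.lin (683373119 / 500000000) (35233 / 10000000000) hv1 bD bb bv3 bna bv2 (by decide +kernel)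
  obtain ⟨v0, hv0⟩ : ∃ w, w = (1 + u) * (1 - s) + u * s * v2 + -(u - s) * v1 := ⟨_, rfl⟩
  have bv0 : Ball v0 0 (37147 / 5000000000) := Ball.lin 0 (37147 / 5000000000) hv0 bD bb bv2 bna bv1 (by decide +kernel)
  have hxe0 : xi u s 1 e0 0 = v0 := by rw [hv0, hv1, hv2, hv3, hv4]; simp only [xi]; ring
  obtain ⟨e, he⟩ : ∃ e, e = -(xi u s 1 0 0) / slope0 u s 1 := ⟨_, rfl⟩
  have haff : ∀ e, xi u s 1 e 0 = xi u s 1 0 0 + slope0 u s 1 * e := by
    intro e; simp only [xi, slope0]; ring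
  have hmul : slope0 u s 1 * e = -(xi u s 1 0 0) := by rw [he]; field_simp
  have h0 : xi u s 1 e 0 = 0 := by rw [haff, hmul]; ring
  have be : Ball e (1828908073 / 1250000000) (1679 / 2000000000) := Ball.root (1679 / 2000000000) bv0 bw0 (by rw [← hxe0, haff e0, ← hsl]; linear_combination hmul + slope0 u s 1 * he0) (by decide +kernel) (by decide +kernel)
  obtain ⟨x3, hx3⟩ : ∃ w, w = 1 + 0 * 0 + -u * e := ⟨_, rfl⟩
  have bx3 : Ball x3 (-18526148551 / 10000000000) (2229 / 1250000000) := Ball.lin (-18526148551 / 10000000000) (2229 / 1250000000) hx3 bone bz bz bnu be (by decide +kernel)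
  obtain ⟨x4, hx4⟩ : ∃ w, w = 1 + 0 * 0 + 1 * e := ⟨_, rfl⟩
  have bx4 : Ball x4 (3078908073 / 1250000000) (2099 / 2500000000) := Ball.lin (3078908073 / 1250000000) (2099 / 2500000000) hx4 bone bz bz bone be (by decide +kernel)
  obtain ⟨x2, hx2⟩ : ∃ w, w = (1 + u) * (1 - s) + u * s * x4 + (u - s) * x3 := ⟨_, rfl⟩
  have bx2 : Ball x2 (1168023669 / 10000000000) (369 / 78125000) := Ball.lin (1168023669 / 10000000000) (369 / 78125000) hx2 bD bb bx4 ba bx3 (by decide +kernel)
  obtain ⟨x1, hx1⟩ : ∃ w, w = (1 + u) * (1 - s) + u * s * x3 + (-(u - s)) * x2 := ⟨_, rfl⟩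
  have bx1 : Ball x1 (683373119 / 500000000) (97447 / 10000000000) := Ball.lin (683373119 / 500000000) (97447 / 10000000000) hx1 bD bb bx3 bna bx2 (by decide +kernel)
  have hX2 : xi u s 1 e 2 = x2 := by rw [hx2, hx3, hx4]; simp only [xi]; ring
  have hX1 : xi u s 1 e 1 = x1 := by rw [hx1, hx2, hx3, hx4]; simp only [xi]; ring
  have hgood : Good u s 1 e := by
    refine ⟨?_, ?_, ?_, ?_⟩
    · have := bx3.neg_of (by decide +kernel); rw [hx3] at this; linarith
    · have := (bu.sub be).pos (by decide +kernel); linarith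
    · rw [hX2]; have := bx2.pos (by decide +kernel); linarith
    · rw [hX1]; exact bx1.pos (by decide +kernel)
  obtain ⟨z0, hz0⟩ : ∃ w, w = (1 + u) * (1 - s) + u * s * x1 + 0 * 0 := ⟨_, rfl⟩
  have bz0 : Ball z0 (28897493441 / 10000000000) (5831 / 1250000000) := Ball.lin (28897493441 / 10000000000) (5831 / 1250000000) hz0 bD bb bx1 bz bz (by decide +kernel)
  obtain ⟨z1, hz1⟩ : ∃ w, w = (1 + u) * (1 - s) + u * s * 0 + -(u - s) * z0 := ⟨_, rfl⟩
  have bz1 : Ball z1 (-13484945219 / 5000000000) (90661 / 10000000000) := Ball.lin (-13484945219 / 5000000000) (90661 / 10000000000) hz1 bD bb bz bna bz0 (by decide +kernel)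
  obtain ⟨z2, hz2⟩ : ∃ w, w = (1 + u) * (1 - s) + u * s * z0 + (u - s) * z1 := ⟨_, rfl⟩
  have bz2 : Ball z2 (-5884978211 / 5000000000) (48051 / 2500000000) := Ball.lin (-5884978211 / 5000000000) (48051 / 2500000000) hz2 bD bb bz0 ba bz1 (by decide +kernel)
  obtain ⟨z3, hz3⟩ : ∃ w, w = (1 + u) * (1 - s) + u * s * z1 + (u - s) * z2 := ⟨_, rfl⟩
  have bz3 : Ball z3 (-1647031091 / 2000000000) (191707 / 5000000000) := Ball.lin (-1647031091 / 2000000000) (191707 / 5000000000) hz3 bD bb bz1 ba bz2 (by decide +kernel)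
  obtain ⟨z4, hz4⟩ : ∃ w, w = (1 + u) * (1 - s) + u * s * z2 + (u - s) * z3 := ⟨_, rfl⟩
  have bz4 : Ball z4 (4144758079 / 10000000000) (753641 / 10000000000) := Ball.lin (4144758079 / 10000000000) (753641 / 10000000000) hz4 bD bb bz2 ba bz3 (by decide +kernel)
  obtain ⟨z5, hz5⟩ : ∃ w, w = (1 + u) * (1 - s) + u * s * z3 + -(u - s) * z4 := ⟨_, rfl⟩
  have bz5 : Ball z5 (6354366139 / 5000000000) (1474419 / 10000000000) := Ball.lin (6354366139 / 5000000000) (1474419 / 10000000000) hz5 bD bb bz3 bna bz4 (by decide +kernel)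
  obtain ⟨z6, hz6⟩ : ∃ w, w = (1 + u) * (1 - s) + u * s * z4 + -(u - s) * z5 := ⟨_, rfl⟩
  have bz6 : Ball z6 (2887978473 / 10000000000) (2880747 / 10000000000) := Ball.lin (2887978473 / 10000000000) (2880747 / 10000000000) hz6 bD bb bz4 bna bz5 (by decide +kernel)
  obtain ⟨z7, hz7⟩ : ∃ w, w = (1 + u) * (1 - s) + u * s * z5 + -(u - s) * z6 := ⟨_, rfl⟩
  have bz7 : Ball z7 (23481109191 / 10000000000) (5622291 / 10000000000) := Ball.lin (23481109191 / 10000000000) (5622291 / 10000000000) hz7 bD bb bz5 bna bz6 (by decide +kernel)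
  obtain ⟨z8, hz8⟩ : ∃ w, w = (1 + u) * (1 - s) + u * s * z6 + -(u - s) * z7 := ⟨_, rfl⟩
  have bz8 : Ball z8 (-16364678593 / 10000000000) (5484733 / 5000000000) := Ball.lin (-16364678593 / 10000000000) (5484733 / 5000000000) hz8 bD bb bz6 bna bz7 (by decide +kernel)
  obtain ⟨z9, hz9⟩ : ∃ w, w = (1 + u) * (1 - s) + u * s * z7 + (u - s) * z8 := ⟨_, rfl⟩
  have bz9 : Ball z9 (1114036367 / 2500000000) (5349323 / 2500000000) := Ball.lin (1114036367 / 2500000000) (5349323 / 2500000000) hz9 bD bb bz7 ba bz8 (by decide +kernel)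
  have hPhi : Phi2 u s e = 0 := by
    have h1 := link2 u s e
    rw [hP, h0] at h1
    have h2 : slope0 u s 1 * Phi2 u s e = 0 := by linear_combination h1
    exact (mul_eq_zero.1 h2).resolve_left hne
  have hfin : z9 - 1 = s * (z8 - 1) := by
    have h3 : Phi2 u s e = z9 - 1 - s * (z8 - 1) := by
      simp only [Phi2, hX1]
      rw [hz9, hz8, hz7, hz6, hz5, hz4, hz3, hz2, hz1, hz0]
      ring
    linarith
  exact mem_two hu1 hs0 hs1 hgood h0 hne
    (by rw [hX1]; linear_combination hz0) (by linear_combination hz1) (by linear_combination hz2) (by linear_combination hz3) (by linear_combination hz4) (by linear_combination hz5) (by linear_combination hz6) (by linear_combination hz7) (by linear_combination hz8) (by linear_combination hz9)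
    (bz0.pos (by decide +kernel)) (bz1.neg_of (by decide +kernel)) (bz2.neg_of (by decide +kernel)) (bz3.neg_of (by decide +kernel)) (bz4.pos (by decide +kernel)) (bz5.pos (by decide +kernel)) (bz6.pos (by decide +kernel)) (bz7.pos (by decide +kernel)) (bz8.neg_of (by decide +kernel)) (bz9.pos (by decide +kernel))
    hfin

end Pool.Agent.Helper48_Lozi
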